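import Pool.Agent.Helper446.Oracle

/-!
Basic combinators: bounded search, initial segments, universal functionals with use, listing of
computable approximations.
-/

namespace Pool.Agent.H587R2.NCE

open Pool.Agent.Helper446 Pool.Agent.Helper446.RE Pool.Agent.Helper446.Oracle
open Encodable Nat.Partrec

section comb

variable {α β γ : Type*} [Primcodable α] [Primcodable β] [Primcodable γ]

theorem c_allB {q : α → ℕ → Bool} (hq : Computable fun p : α × ℕ => q p.1 p.2) {f : α → ℕ}
    (hf : Computable f) : Computable fun a => allB (q a) (f a) := computable_allB hq hf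

theorem c_exB {q : α → ℕ → Bool} (hq : Computable fun p : α × ℕ => q p.1 p.2) {f : α → ℕ}
    (hf : Computable f) : Computable fun a => exB (q a) (f a) := computable_exB hq hf

/-- The least `i < n` with `q i`, or `n` if there is none. -/
def lst (q : ℕ → Bool) : ℕ → ℕ
  | 0 => 0
  | n + 1 => bif exB q n then lst q n else bif q n then n else n + 1

theorem lst_spec (q : ℕ → Bool) (n : ℕ) :
    (lst q n < n ∧ q (lst q n) = true ∧ ∀ i < lst q n, q i = false) ∨
      (lst q n = n ∧ ∀ i < n, q i = false) := by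
  induction n with
  | zero => right; exact ⟨rfl, fun i hi => absurd hi (by omega)⟩
  | succ n ih =>
    simp only [lst]
    cases h : exB q n
    · have h1 : ∀ i < n, q i = false := by
        intro i hi
        by_contra hc
        rw [Bool.not_eq_false] at hc
        have : exB q n = true := (exB_iff q n).2 ⟨i, hi, hc⟩
        rw [h] at this; cases this
      cases h2 : q n
      · right
        simp only [cond_false]
        refine ⟨trivial, fun i hi => ?_⟩
        rcases Nat.lt_succ_iff_lt_or_eq.1 hi with h3 | h3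
        · exact h1 i h3
        · rw [h3]; exact h2
      · left
        simp only [cond_false, cond_true]
        exact ⟨Nat.lt_succ_self n, h2, h1⟩
    · obtain ⟨i, hi, hqi⟩ := (exB_iff q n).1 h
      rcases ih with ⟨h1, h2, h3⟩ | ⟨h1, h2⟩
      · left
        simp only [cond_true]
        exact ⟨by omega, h2, h3⟩
      · rw [h2 i hi] at hqi; cases hqi

theorem lst_le (q : ℕ → Bool) (n : ℕ) : lst q n ≤ n := by
  rcases lst_spec q n with ⟨h, _⟩ | ⟨h, _⟩ <;> omega

theorem lst_lt_of {q : ℕ → Bool} {n i : ℕ} (hi : i < n) (hq : q i = true) :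
    lst q n ≤ i ∧ lst q n < n ∧ q (lst q n) = true := by
  rcases lst_spec q n with ⟨h1, h2, h3⟩ | ⟨h1, h2⟩
  · refine ⟨?_, h1, h2⟩
    by_contra hc
    have := h3 i (by omega)
    rw [hq] at this; cases this
  · rw [h2 i hi] at hq; cases hq

theorem lst_min {q : ℕ → Bool} {n i : ℕ} (hi : i < lst q n) : q i = false := by
  rcases lst_spec q n with ⟨_, _, h3⟩ | ⟨h1, h2⟩
  · exact h3 i hi
  · exact h2 i (by omega)

theorem lst_of_lt {q : ℕ → Bool} {n : ℕ} (h : lst q n < n) : q (lst q n) = true := by
  rcases lst_spec q n with ⟨_, h2, _⟩ | ⟨h1, _⟩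
  · exact h2
  · omega

theorem lst_eq_of {q : ℕ → Bool} {n i : ℕ} (hi : i < n) (hq : q i = true)
    (hmin : ∀ k < i, q k = false) : lst q n = i := by
  obtain ⟨h1, h2, h3⟩ := lst_lt_of hi hq
  by_contra hc
  have := hmin (lst q n) (by omega)
  rw [h3] at this; cases this

theorem c_lst {q : α → ℕ → Bool} (hq : Computable fun p : α × ℕ => q p.1 p.2) {f : α → ℕ}
    (hf : Computable f) : Computable fun a => lst (q a) (f a) := by
  have h1 : Computable fun x : α × (ℕ × ℕ) => exB (q x.1) x.2.1 :=
    c_exB (α := α × (ℕ × ℕ)) (q := fun x i => q x.1 i) (f := fun x => x.2.1)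
      (hq.comp (g := fun p : (α × (ℕ × ℕ)) × ℕ => (p.1.1, p.2)) (by fun_prop)) (by fun_prop)
  have h2 : Computable fun x : α × (ℕ × ℕ) => q x.1 x.2.1 :=
    hq.comp (g := fun x : α × (ℕ × ℕ) => (x.1, x.2.1)) (by fun_prop)
  have h := Computable.nat_rec (f := f) (g := fun _ : α => (0 : ℕ))
    (h := fun (a : α) (y : ℕ × ℕ) => bif exB (q a) y.1 then y.2 else bif q a y.1 then y.1
      else y.1 + 1) hf (Computable.const 0)
    (show Computable fun x : α × (ℕ × ℕ) => bif exB (q x.1) x.2.1 then x.2.2 else
      bif q x.1 x.2.1 then x.2.1 else x.2.1 + 1 by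
      exact ccond h1 (by fun_prop) (ccond h2 (by fun_prop) (by fun_prop)))
  refine h.of_eq fun a => ?_
  generalize f a = n
  induction n with
  | zero => rfl
  | succ n ih => simp only [lst]; rw [← ih]

/-- Existential quantification over a list. -/
def exL (l : List β) (q : β → Bool) : Bool := exB (fun i => (l[i]?).elim false q) l.length

omit [Primcodable β] in
theorem exL_iff {l : List β} {q : β → Bool} : exL l q = true ↔ ∃ b ∈ l, q b = true := by
  unfold exL
  rw [exB_iff]
  constructor
  · rintro ⟨i, hi, h⟩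
    rw [List.getElem?_eq_getElem hi] at h
    exact ⟨l[i], List.getElem_mem hi, h⟩
  · rintro ⟨b, hb, h⟩
    obtain ⟨i, hi, rfl⟩ := List.getElem_of_mem hb
    refine ⟨i, hi, ?_⟩
    rw [List.getElem?_eq_getElem hi]
    exact h

theorem c_elim {f : α → Option β} {g : α → β → γ} {d : α → γ} (hf : Computable f)
    (hd : Computable d) (hg : Computable fun p : α × β => g p.1 p.2) :
    Computable fun a => (f a).elim (d a) (g a) := by
  refine (Computable.option_casesOn hf hd hg).of_eq fun a => ?_
  cases f a <;> rfl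

theorem c_exL {l : α → List β} {q : α → β → Bool} (hl : Computable l)
    (hq : Computable fun p : α × β => q p.1 p.2) : Computable fun a => exL (l a) (q a) := by
  unfold exL
  refine c_exB ?_ (by fun_prop)
  refine c_elim (α := α × ℕ) (f := fun p => (l p.1)[p.2]?) (by fun_prop) (by fun_prop) ?_
  exact hq.comp (g := fun p : (α × ℕ) × β => (p.1.1, p.2)) (by fun_prop)

/-- Supremum over a list. -/
def supL (l : List β) (q : β → ℕ) : ℕ := l.foldl (fun a b => max a (q b)) 0

omit [Primcodable β] in
theorem foldl_max_le {l : List β} {q : β → ℕ} {a c : ℕ} :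
    l.foldl (fun a b => max a (q b)) a ≤ c ↔ a ≤ c ∧ ∀ b ∈ l, q b ≤ c := by
  induction l generalizing a with
  | nil => simp
  | cons b l ih =>
    simp only [List.foldl_cons, ih, List.mem_cons, forall_eq_or_imp]
    constructor
    · rintro ⟨h1, h2⟩; exact ⟨by omega, by omega, h2⟩
    · rintro ⟨h1, h2, h3⟩; exact ⟨by omega, h3⟩

omit [Primcodable β] in
theorem supL_le {l : List β} {q : β → ℕ} {c : ℕ} : supL l q ≤ c ↔ ∀ b ∈ l, q b ≤ c := by
  unfold supL
  rw [foldl_max_le]
  simp

omit [Primcodable β] in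
theorem le_supL {l : List β} {q : β → ℕ} {b : β} (hb : b ∈ l) : q b ≤ supL l q :=
  supL_le.1 le_rfl b hb

theorem c_supL {l : α → List β} {q : α → β → ℕ} (hl : Computable l)
    (hq : Computable fun p : α × β => q p.1 p.2) : Computable fun a => supL (l a) (q a) := by
  unfold supL
  refine RE.list_foldl (h := fun (a : α) (s : ℕ × β) => max s.1 (q a s.2)) hl
    (Computable.const 0) ?_
  show Computable fun p : α × (ℕ × β) => max p.2.1 (q p.1 p.2.2)
  have h := hq.comp (g := fun p : α × (ℕ × β) => (p.1, p.2.2)) (by fun_prop)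
  fun_prop

end comb

section seg

variable {α : Type*} [Primcodable α]

/-- Initial segment of length `n`. -/
def sg (x : ℕ → Bool) : ℕ → List Bool
  | 0 => []
  | n + 1 => sg x n ++ [x n]

theorem sg_length (x : ℕ → Bool) (n : ℕ) : (sg x n).length = n := by
  induction n with
  | zero => rfl
  | succ n ih => simp [sg, ih]

theorem sg_get (x : ℕ → Bool) {n i : ℕ} (hi : i < n) : (sg x n)[i]? = some (x i) := by
  induction n with
  | zero => omega
  | succ n ih =>
    simp only [sg]
    rcases Nat.lt_succ_iff_lt_or_eq.1 hi with h | rfl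
    · rw [List.getElem?_append_left (by rw [sg_length]; exact h)]
      exact ih h
    · rw [List.getElem?_append_right (by rw [sg_length])]
      simp [sg_length]

theorem sg_congr {x y : ℕ → Bool} {n : ℕ} (h : ∀ i < n, x i = y i) : sg x n = sg y n := by
  induction n with
  | zero => rfl
  | succ n ih =>
    simp only [sg]
    rw [ih fun i hi => h i (by omega), h n (by omega)]

theorem c_sg {x : α → ℕ → Bool} (hx : Computable fun p : α × ℕ => x p.1 p.2) {f : α → ℕ}
    (hf : Computable f) : Computable fun a => sg (x a) (f a) := by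
  have h := Computable.nat_rec (f := f) (g := fun _ : α => ([] : List Bool))
    (h := fun (a : α) (y : ℕ × List Bool) => y.2 ++ [x a y.1]) hf (Computable.const [])
    (show Computable fun p : α × (ℕ × List Bool) => p.2.2 ++ [x p.1 p.2.1] by
      have h1 := hx.comp (g := fun p : α × (ℕ × List Bool) => (p.1, p.2.1)) (by fun_prop)
      fun_prop)
  refine h.of_eq fun a => ?_
  generalize f a = n
  induction n with
  | zero => rfl
  | succ n ih => simp only [sg]; rw [← ih]

end seg

/-! ### Universal functionals -/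

/-- The `e`-th functional, with oracle `X` restricted to `n`, gives value `b` at `y`. -/
def ax (e : ℕ) (X : ℕ → Bool) (n y : ℕ) (b : Bool) : Bool :=
  exB (fun l => wst ((ℕ × Bool) × List Bool) e n ((y, b), sg X l)) (n + 1)

theorem ax_iff {e : ℕ} {X : ℕ → Bool} {n y : ℕ} {b : Bool} : ax e X n y b = true ↔
    ∃ l ≤ n, wst ((ℕ × Bool) × List Bool) e n ((y, b), sg X l) = true := by
  unfold ax
  rw [exB_iff]
  constructor
  · rintro ⟨l, hl, h⟩; exact ⟨l, by omega, h⟩
  · rintro ⟨l, hl, h⟩; exact ⟨l, by omega, h⟩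

theorem ax_mono {e : ℕ} {X : ℕ → Bool} {n m y : ℕ} {b : Bool} (h : n ≤ m)
    (hx : ax e X n y b = true) : ax e X m y b = true := by
  rw [ax_iff] at *
  obtain ⟨l, hl, h1⟩ := hx
  exact ⟨l, hl.trans h, wst_mono h h1⟩

theorem ax_congr {e : ℕ} {X Y : ℕ → Bool} {n y : ℕ} {b : Bool} (h : ∀ i < n, X i = Y i) :
    ax e X n y b = ax e Y n y b := by
  have : ∀ X Y : ℕ → Bool, (∀ i < n, X i = Y i) → ax e X n y b = true →
      ax e Y n y b = true := by
    intro X Y h hx
    rw [ax_iff] at *
    obtain ⟨l, hl, h1⟩ := hx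
    exact ⟨l, hl, by rw [← sg_congr fun i hi => h i (by omega)]; exact h1⟩
  rw [Bool.eq_iff_iff]
  exact ⟨this X Y h, this Y X fun i hi => (h i hi).symm⟩

/-- Convergence. -/
def dn (e : ℕ) (X : ℕ → Bool) (n y : ℕ) : Bool := ax e X n y true || ax e X n y false

theorem dn_mono {e : ℕ} {X : ℕ → Bool} {n m y : ℕ} (h : n ≤ m)
    (hx : dn e X n y = true) : dn e X m y = true := by
  unfold dn at *
  rw [Bool.or_eq_true] at *
  rcases hx with h1 | h1
  · exact Or.inl (ax_mono h h1)
  · exact Or.inr (ax_mono h h1)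

theorem dn_congr {e : ℕ} {X Y : ℕ → Bool} {n y : ℕ} (h : ∀ i < n, X i = Y i) :
    dn e X n y = dn e Y n y := by
  unfold dn; rw [ax_congr h, ax_congr h]

/-- The use: least length at which the computation converges. -/
def lu (e : ℕ) (X : ℕ → Bool) (n y : ℕ) : ℕ := lst (fun l => dn e X l y) (n + 1)

/-- The value of the computation. -/
def vl (e : ℕ) (X : ℕ → Bool) (n y : ℕ) : Bool := ax e X (lu e X n y) y true

/-- The computation converges with value `b`. -/
def cv (e : ℕ) (X : ℕ → Bool) (n y : ℕ) (b : Bool) : Bool := dn e X n y && (vl e X n y == b)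

theorem lu_spec {e : ℕ} {X : ℕ → Bool} {n y : ℕ} (h : dn e X n y = true) :
    lu e X n y ≤ n ∧ dn e X (lu e X n y) y = true ∧ ∀ l < lu e X n y, dn e X l y = false := by
  obtain ⟨h1, h2, h3⟩ := lst_lt_of (q := fun l => dn e X l y) (n := n + 1) (i := n) (by omega) h
  exact ⟨h1, h3, fun l hl => lst_min (q := fun l => dn e X l y) hl⟩

theorem lu_eq_of {e : ℕ} {X : ℕ → Bool} {n y l : ℕ} (hl : l ≤ n) (h : dn e X l y = true)
    (hm : ∀ k < l, dn e X k y = false) : lu e X n y = l :=
  lst_eq_of (q := fun l => dn e X l y) (by omega) h hm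

theorem cv_iff {e : ℕ} {X : ℕ → Bool} {n y : ℕ} {b : Bool} : cv e X n y b = true ↔
    ∃ l ≤ n, dn e X l y = true ∧ (∀ k < l, dn e X k y = false) ∧ ax e X l y true = b := by
  unfold cv
  rw [Bool.and_eq_true, beq_iff_eq]
  constructor
  · rintro ⟨h1, h2⟩
    obtain ⟨h3, h4, h5⟩ := lu_spec h1
    exact ⟨lu e X n y, h3, h4, h5, h2⟩
  · rintro ⟨l, hl, h1, h2, h3⟩
    refine ⟨dn_mono hl h1, ?_⟩
    unfold vl
    rw [lu_eq_of hl h1 h2]
    exact h3

theorem cv_mono {e : ℕ} {X : ℕ → Bool} {n m y : ℕ} {b : Bool} (h : n ≤ m)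
    (hx : cv e X n y b = true) : cv e X m y b = true := by
  rw [cv_iff] at *
  obtain ⟨l, hl, h1⟩ := hx
  exact ⟨l, hl.trans h, h1⟩

theorem cv_congr {e : ℕ} {X Y : ℕ → Bool} {n y : ℕ} {b : Bool} (h : ∀ i < n, X i = Y i)
    (hx : cv e X n y b = true) : cv e Y n y b = true := by
  rw [cv_iff] at *
  obtain ⟨l, hl, h1, h2, h3⟩ := hx
  refine ⟨l, hl, ?_, ?_, ?_⟩
  · rw [← dn_congr fun i hi => h i (by omega)]; exact h1
  · intro k hk
    rw [← dn_congr fun i hi => h i (by omega)]; exact h2 k hk
  · rw [← ax_congr fun i hi => h i (by omega)]; exact h3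

theorem cv_unique_same {e : ℕ} {X : ℕ → Bool} {n m y : ℕ} {b c : Bool}
    (h1 : cv e X n y b = true) (h2 : cv e X m y c = true) : b = c := by
  rw [cv_iff] at *
  obtain ⟨l, _, h3, h4, h5⟩ := h1
  obtain ⟨k, _, h6, h7, h8⟩ := h2
  rcases lt_trichotomy l k with h | h | h
  · rw [h7 l h] at h3; cases h3
  · subst h; rw [← h5, ← h8]
  · rw [h4 k h] at h6; cases h6

/-- Computations with oracles which agree below the smaller length have the same value. -/
theorem cv_unique {e : ℕ} {X Y : ℕ → Bool} {n m y : ℕ} {b c : Bool}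
    (h : ∀ i < n, i < m → X i = Y i) (h1 : cv e X n y b = true) (h2 : cv e Y m y c = true) :
    b = c := by
  rcases le_total n m with hnm | hnm
  · exact cv_unique_same (cv_congr (fun i hi => h i hi (by omega)) h1) h2
  · exact cv_unique_same h1 (cv_congr (fun i hi => (h i (by omega) hi).symm) h2)

/-- Same for the use. -/
theorem lu_unique {e : ℕ} {X Y : ℕ → Bool} {n m y : ℕ} (h1 : dn e X n y = true)
    (h2 : dn e Y m y = true) (h : ∀ i < lu e X n y, i < lu e Y m y → X i = Y i) :
    lu e X n y = lu e Y m y := by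
  obtain ⟨h3, h4, h5⟩ := lu_spec h1
  obtain ⟨h6, h7, h8⟩ := lu_spec h2
  generalize lu e X n y = l at *
  generalize lu e Y m y = k at *
  rcases lt_trichotomy l k with hlt | heq | hgt
  · have := dn_congr (e := e) (y := y) (n := l) (X := X) (Y := Y) fun i hi => h i hi (by omega)
    rw [h4, h8 l hlt] at this; cases this
  · exact heq
  · have := dn_congr (e := e) (y := y) (n := k) (X := X) (Y := Y) fun i hi => h i (by omega) hi
    rw [h7, h5 k hgt] at this; cases this

theorem dn_of_cv {e : ℕ} {X : ℕ → Bool} {n y : ℕ} {b : Bool} (h : cv e X n y b = true) :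
    dn e X n y = true := by
  unfold cv at h
  rw [Bool.and_eq_true] at h
  exact h.1

theorem cv_use {e : ℕ} {X : ℕ → Bool} {n y : ℕ} {b : Bool} (h : cv e X n y b = true) :
    cv e X (lu e X n y) y b = true := by
  have h1 := lu_spec (dn_of_cv h)
  rw [cv_iff] at *
  obtain ⟨l, hl, h2, h3, h4⟩ := h
  have : lu e X n y = l := lu_eq_of hl h2 h3
  rw [this]
  exact ⟨l, le_rfl, h2, h3, h4⟩

section ccomp

variable {α : Type*} [Primcodable α]

theorem c_ax {e n y : α → ℕ} {b : α → Bool} {X : α → ℕ → Bool} (he : Computable e)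
    (hn : Computable n) (hy : Computable y) (hb : Computable b)
    (hX : Computable fun p : α × ℕ => X p.1 p.2) :
    Computable fun a => ax (e a) (X a) (n a) (y a) (b a) := by
  unfold ax
  refine c_exB ?_ (by fun_prop)
  have h1 : Computable fun p : α × ℕ => sg (X p.1) p.2 :=
    c_sg (x := fun p : α × ℕ => X p.1) (f := fun p => p.2)
      (hX.comp (g := fun p : (α × ℕ) × ℕ => (p.1.1, p.2)) (by fun_prop)) (by fun_prop)
  have h2 := wst_comp (α := (ℕ × Bool) × List Bool)
  have h3 : Computable fun p : α × ℕ =>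
      (((e p.1, n p.1), ((y p.1, b p.1), sg (X p.1) p.2)) :
        (ℕ × ℕ) × ((ℕ × Bool) × List Bool)) :=
    cpair (cpair (by fun_prop) (by fun_prop)) (cpair (cpair (by fun_prop) (by fun_prop)) h1)
  exact h2.comp h3

theorem c_dn {e n y : α → ℕ} {X : α → ℕ → Bool} (he : Computable e)
    (hn : Computable n) (hy : Computable y)
    (hX : Computable fun p : α × ℕ => X p.1 p.2) :
    Computable fun a => dn (e a) (X a) (n a) (y a) := by
  unfold dn
  exact cor (c_ax he hn hy (by fun_prop) hX) (c_ax he hn hy (by fun_prop) hX)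

theorem c_lu {e n y : α → ℕ} {X : α → ℕ → Bool} (he : Computable e)
    (hn : Computable n) (hy : Computable y)
    (hX : Computable fun p : α × ℕ => X p.1 p.2) :
    Computable fun a => lu (e a) (X a) (n a) (y a) := by
  unfold lu
  refine c_lst ?_ (by fun_prop)
  exact c_dn (e := fun p : α × ℕ => e p.1) (n := fun p => p.2) (y := fun p => y p.1)
    (X := fun p => X p.1) (by fun_prop) (by fun_prop) (by fun_prop)
    (hX.comp (g := fun p : (α × ℕ) × ℕ => (p.1.1, p.2)) (by fun_prop))

theorem c_vl {e n y : α → ℕ} {X : α → ℕ → Bool} (he : Computable e)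
    (hn : Computable n) (hy : Computable y)
    (hX : Computable fun p : α × ℕ => X p.1 p.2) :
    Computable fun a => vl (e a) (X a) (n a) (y a) := by
  unfold vl
  have h1 := c_lu he hn hy hX
  have h2 : Computable fun _ : α => true := Computable.const true
  exact c_ax he h1 hy h2 hX

theorem c_cv {e n y : α → ℕ} {b : α → Bool} {X : α → ℕ → Bool} (he : Computable e)
    (hn : Computable n) (hy : Computable y) (hb : Computable b)
    (hX : Computable fun p : α × ℕ => X p.1 p.2) :
    Computable fun a => cv (e a) (X a) (n a) (y a) (b a) := by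
  unfold cv
  refine cand (c_dn he hn hy hX) ?_
  have h1 := c_vl he hn hy hX
  have h2 : Computable fun a => decide (vl (e a) (X a) (n a) (y a) = b a) :=
    cdecide (cp_eq h1 hb)
  exact h2

end ccomp

end Pool.Agent.H587R2.NCE
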