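import Pool.Agent.H587R2.NCE.Func

/-!
The construction.
-/

namespace Pool.Agent.H587R2.NCE

open Pool.Agent.Helper446 Pool.Agent.Helper446.RE Pool.Agent.Helper446.Oracle
open Encodable Nat.Partrec

/-- Entries `((j, p), (u, t))`: requirement, priority, use, stage. -/
abbrev TT := List ((ℕ × ℕ) × (ℕ × ℕ))
/-- Followers with status. -/
abbrev FF := List (ℕ × ℕ)
/-- States: entries, active followers, dropped followers. -/
abbrev St := TT × (FF × FF)

def jm (j : ℕ) : ℕ := j.unpair.1
def jt (j : ℕ) : ℕ := j.unpair.2.unpair.1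
def jf (j : ℕ) : ℕ := j.unpair.2.unpair.2.unpair.1
def ji (j : ℕ) : Bool := decide (j.unpair.2.unpair.2.unpair.2 = 1)

/-- Current membership in `A`. -/
def inA (S : St) (x : ℕ) : Bool := decide ((x, 1) ∈ S.2.1) || decide ((x, 1) ∈ S.2.2)

/-- The requirement `j` has recorded a use above `w` before stage `t`. -/
def rge (T : TT) (j w t : ℕ) : Bool :=
  exL T fun z => decide (z.1.1 = j) && (decide (w < z.2.1) && decide (z.2.2 < t))

/-- The requirement that decides the side of `w`. -/
def sj (T : TT) (m w t : ℕ) : ℕ := lst (fun j => decide (jm j = m) && rge T j w t) t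

/-- The side of the element `w` of the `m`-th set entering at stage `t`. -/
def side (T : TT) (m w t : ℕ) : Bool :=
  bif decide (sj T m w t < t) then !(ji (sj T m w t)) else false

/-- First entry stage. -/
def fe (m w s : ℕ) : ℕ := lst (fun t => Ap m w t) (s + 1)

/-- Current part of the `m`-th set. -/
def Mi (T : TT) (m : ℕ) (i : Bool) (s w : ℕ) : Bool :=
  Ap m w s && decide (side T m w (fe m w s) = i)

/-- Join. -/
def jn (X Y : ℕ → Bool) (x : ℕ) : Bool := bif decide (x % 2 = 0) then X (x / 2) else Y (x / 2)

/-- The oracle of requirement `j`. -/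
def orc (S : St) (j s : ℕ) : ℕ → Bool := jn (inA S) (Mi S.1 (jm j) (ji j) s)

/-- Relevant elements. -/
def rel (S : St) (j s w : ℕ) : Bool :=
  exB (fun t => Ap (jm j) w t) (s + 1) && decide (side S.1 (jm j) w (fe (jm j) w s) = ji j)

def ul (S : St) (j s y : ℕ) : ℕ := lu (jf j) (orc S j s) s y

def uv (S : St) (j s y : ℕ) : ℕ :=
  lst (fun v => decide (ul S j s y ≤ v) &&
    allB (fun w => !(rel S j s w) || dn (jt j) (inA S) v w) (ul S j s y)) (s + 1)

/-- Requirement `j` is valid at `y`. -/
def val1 (S : St) (j s y : ℕ) : Bool :=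
  cv (jf j) (orc S j s) s y (Ap (jm j) y s) && (decide (uv S j s y ≤ s) &&
    allB (fun w => !(rel S j s w) || cv (jt j) (inA S) (uv S j s y) w (Ap (jm j) w s))
      (ul S j s y))

def val (S : St) (j s y : ℕ) : Bool := allB (fun y => val1 S j s y) (y + 1)

def cc (T : TT) (j : ℕ) : ℕ :=
  supL T fun z => bif decide (z.1.1 < j) && decide (jm z.1.1 = jm j) then z.2.1 else 0

/-- The requirement and argument treated at stage `s`. -/
def sJ (s : ℕ) : ℕ := s.unpair.1.unpair.1
def sY (s : ℕ) : ℕ := s.unpair.1.unpair.2

/-- The new entry for the argument `y`. -/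
def nent (S : St) (s y : ℕ) : (ℕ × ℕ) × (ℕ × ℕ) :=
  ((sJ s, sJ s + y + cc S.1 (sJ s)), (max (uv S (sJ s) s y) y, s))

/-- The new entries for the arguments below `y`. -/
def nents (S : St) (s : ℕ) : ℕ → TT
  | 0 => []
  | y + 1 => nent S s y :: nents S s y

def newT (S : St) (s : ℕ) : TT :=
  bif val S (sJ s) s (sY s) then nents S s (sY s + 1) ++ S.1 else S.1

/-- The `k`-th follower. -/
def fol (F : FF) (k : ℕ) : ℕ × ℕ := (F[k]?).getD (0, 0)

def inval (T : TT) (F : FF) (k : ℕ) : Bool :=
  exL T fun z => decide (z.1.2 ≤ k) && decide ((fol F k).1 < z.2.1)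

def wIn (e x s : ℕ) (S : St) : Bool :=
  exB (fun l => cv e.unpair.2.unpair.1 (wst ℕ e.unpair.1 s) l x false &&
    allB (fun z => cv e.unpair.2.unpair.2 (inA S) s z (wst ℕ e.unpair.1 s z)) l) (s + 1)

def wOut (e x s : ℕ) : Bool :=
  exB (fun l => cv e.unpair.2.unpair.1 (wst ℕ e.unpair.1 s) l x true) (s + 1)

def wants (S : St) (s k : ℕ) : Bool :=
  (decide ((fol S.2.1 k).2 = 0) && wIn k (fol S.2.1 k).1 s S) ||
    (decide ((fol S.2.1 k).2 = 1) && wOut k (fol S.2.1 k).1 s)

/-- The acting index. -/
def kk (S : St) (s : ℕ) : ℕ :=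
  lst (fun k => inval (newT S s) S.2.1 k || wants S s k) S.2.1.length

def nF (S : St) (s : ℕ) : FF × FF :=
  bif decide (kk S s < S.2.1.length) then
    (bif inval (newT S s) S.2.1 (kk S s) then
      (S.2.1.take (kk S s), S.2.2 ++ S.2.1.drop (kk S s))
    else (S.2.1.take (kk S s) ++ [((fol S.2.1 (kk S s)).1, (fol S.2.1 (kk S s)).2 + 1)],
      S.2.2 ++ S.2.1.drop (kk S s + 1)))
  else (S.2.1 ++ [(s, 0)], S.2.2)

def step (S : St) (s : ℕ) : St := (newT S s, nF S s)

/-- The run of the construction. -/
def run : ℕ → St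
  | 0 => ([], ([], []))
  | s + 1 => step (run s) s

section comput

variable {α : Type*} [Primcodable α]

theorem c_jm {j : α → ℕ} (hj : Computable j) : Computable fun a => jm (j a) := by
  unfold jm; fun_prop
theorem c_jt {j : α → ℕ} (hj : Computable j) : Computable fun a => jt (j a) := by
  unfold jt; fun_prop
theorem c_jf {j : α → ℕ} (hj : Computable j) : Computable fun a => jf (j a) := by
  unfold jf; fun_prop
theorem c_ji {j : α → ℕ} (hj : Computable j) : Computable fun a => ji (j a) := by
  unfold ji
  exact cdecide (cp_eq (by fun_prop) (by fun_prop))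

theorem d_eq {β : Type*} [Primcodable β] [DecidableEq β] {f g : α → β} (hf : Computable f)
    (hg : Computable g) : Computable fun a => decide (f a = g a) := cdecide (cp_eq hf hg)
theorem d_lt {f g : α → ℕ} (hf : Computable f)
    (hg : Computable g) : Computable fun a => decide (f a < g a) := cdecide (cp_lt hf hg)
theorem d_le {f g : α → ℕ} (hf : Computable f)
    (hg : Computable g) : Computable fun a => decide (f a ≤ g a) := cdecide (cp_le hf hg)
theorem d_mem {β : Type*} [Primcodable β] [DecidableEq β] {f : α → β} {l : α → List β}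
    (hf : Computable f) (hl : Computable l) : Computable fun a => decide (f a ∈ l a) :=
  cdecide (cp_mem hf hl)

theorem c_inA {S : α → St} {x : α → ℕ} (hS : Computable S) (hx : Computable x) :
    Computable fun a => inA (S a) (x a) := by
  unfold inA
  have h1 : Computable fun a => decide ((x a, 1) ∈ (S a).2.1) :=
    cdecide (p := fun a => (x a, 1) ∈ (S a).2.1) (cp_mem (by fun_prop) (by fun_prop))
  have h2 : Computable fun a => decide ((x a, 1) ∈ (S a).2.2) :=
    cdecide (p := fun a => (x a, 1) ∈ (S a).2.2) (cp_mem (by fun_prop) (by fun_prop))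
  exact cor h1 h2

theorem c_rge {T : α → TT} {j w t : α → ℕ} (hT : Computable T) (hj : Computable j)
    (hw : Computable w) (ht : Computable t) :
    Computable fun a => rge (T a) (j a) (w a) (t a) := by
  unfold rge
  refine c_exL hT ?_
  exact cand (d_eq (by fun_prop) (by fun_prop))
    (cand (d_lt (by fun_prop) (by fun_prop)) (d_lt (by fun_prop) (by fun_prop)))

theorem c_sj {T : α → TT} {m w t : α → ℕ} (hT : Computable T) (hm : Computable m)
    (hw : Computable w) (ht : Computable t) :
    Computable fun a => sj (T a) (m a) (w a) (t a) := by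
  unfold sj
  refine c_lst (q := fun a j => decide (jm j = m a) && rge (T a) j (w a) (t a)) ?_ ht
  refine cand (d_eq (c_jm (by fun_prop)) (by fun_prop)) ?_
  exact c_rge (T := fun p : α × ℕ => T p.1) (j := fun p => p.2) (w := fun p => w p.1)
    (t := fun p => t p.1) (by fun_prop) (by fun_prop) (by fun_prop) (by fun_prop)

theorem c_side {T : α → TT} {m w t : α → ℕ} (hT : Computable T) (hm : Computable m)
    (hw : Computable w) (ht : Computable t) :
    Computable fun a => side (T a) (m a) (w a) (t a) := by
  unfold side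
  have h := c_sj hT hm hw ht
  exact ccond (d_lt h ht) (cnot (c_ji h)) (by fun_prop)

theorem c_fe {m w s : α → ℕ} (hm : Computable m) (hw : Computable w) (hs : Computable s) :
    Computable fun a => fe (m a) (w a) (s a) := by
  unfold fe
  refine c_lst (q := fun a t => Ap (m a) (w a) t) ?_ (by fun_prop)
  exact c_Ap (c := fun p : α × ℕ => m p.1) (w := fun p => w p.1) (s := fun p => p.2)
    (by fun_prop) (by fun_prop) (by fun_prop)

theorem c_Mi {T : α → TT} {m s w : α → ℕ} {i : α → Bool} (hT : Computable T)
    (hm : Computable m) (hi : Computable i) (hs : Computable s) (hw : Computable w) :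
    Computable fun a => Mi (T a) (m a) (i a) (s a) (w a) := by
  unfold Mi
  exact cand (c_Ap hm hw hs) (d_eq (c_side hT hm hw (c_fe hm hw hs)) hi)

theorem c_jn {X Y : α → ℕ → Bool} (hX : Computable fun p : α × ℕ => X p.1 p.2)
    (hY : Computable fun p : α × ℕ => Y p.1 p.2) {x : α → ℕ} (hx : Computable x) :
    Computable fun a => jn (X a) (Y a) (x a) := by
  unfold jn
  have h1 : Computable fun a => x a / 2 :=
    Primrec.nat_div.to_comp.comp hx (Computable.const 2)
  have h2 : Computable fun a => x a % 2 :=
    Primrec.nat_mod.to_comp.comp hx (Computable.const 2)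
  refine ccond (d_eq h2 (by fun_prop)) ?_ ?_
  · exact hX.comp (g := fun a => (a, x a / 2)) (by fun_prop)
  · exact hY.comp (g := fun a => (a, x a / 2)) (by fun_prop)

theorem c_orc {S : α → St} {j s x : α → ℕ} (hS : Computable S)
    (hj : Computable j) (hs : Computable s) (hx : Computable x) :
    Computable fun a => orc (S a) (j a) (s a) (x a) := by
  unfold orc
  refine c_jn (X := fun a => inA (S a)) (Y := fun a => Mi (S a).1 (jm (j a)) (ji (j a)) (s a))
    ?_ ?_ hx
  · exact c_inA (S := fun p : α × ℕ => S p.1) (x := fun p => p.2) (by fun_prop) (by fun_prop)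
  · exact c_Mi (T := fun p : α × ℕ => (S p.1).1) (m := fun p => jm (j p.1))
      (i := fun p => ji (j p.1)) (s := fun p => s p.1) (w := fun p => p.2)
      (by fun_prop) (c_jm (by fun_prop)) (c_ji (by fun_prop)) (by fun_prop) (by fun_prop)

theorem c_rel {S : α → St} {j s w : α → ℕ} (hS : Computable S)
    (hj : Computable j) (hs : Computable s) (hw : Computable w) :
    Computable fun a => rel (S a) (j a) (s a) (w a) := by
  unfold rel
  refine cand ?_ (d_eq (c_side (T := fun a => (S a).1) (by fun_prop) (c_jm hj) hw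
    (c_fe (c_jm hj) hw hs)) (c_ji hj))
  refine c_exB (q := fun a t => Ap (jm (j a)) (w a) t) ?_ (by fun_prop)
  exact c_Ap (c := fun p : α × ℕ => jm (j p.1)) (w := fun p => w p.1) (s := fun p => p.2)
    (c_jm (by fun_prop)) (by fun_prop) (by fun_prop)

theorem c_ul {S : α → St} {j s y : α → ℕ} (hS : Computable S)
    (hj : Computable j) (hs : Computable s) (hy : Computable y) :
    Computable fun a => ul (S a) (j a) (s a) (y a) := by
  unfold ul
  refine c_lu (X := fun a => orc (S a) (j a) (s a)) (c_jf hj) hs hy ?_
  exact c_orc (S := fun p : α × ℕ => S p.1) (j := fun p => j p.1) (s := fun p => s p.1)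
    (x := fun p => p.2) (by fun_prop) (by fun_prop) (by fun_prop) (by fun_prop)

theorem c_inA' {S : α → St} (hS : Computable S) :
    Computable fun p : α × ℕ => inA (S p.1) p.2 :=
  c_inA (S := fun p : α × ℕ => S p.1) (x := fun p => p.2) (by fun_prop) (by fun_prop)

theorem c_uv {S : α → St} {j s y : α → ℕ} (hS : Computable S)
    (hj : Computable j) (hs : Computable s) (hy : Computable y) :
    Computable fun a => uv (S a) (j a) (s a) (y a) := by
  unfold uv
  have hul := c_ul hS hj hs hy
  refine c_lst (q := fun a v => decide (ul (S a) (j a) (s a) (y a) ≤ v) &&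
    allB (fun w => !(rel (S a) (j a) (s a) w) || dn (jt (j a)) (inA (S a)) v w)
      (ul (S a) (j a) (s a) (y a))) ?_ (by fun_prop)
  have hul' : Computable fun p : α × ℕ => ul (S p.1) (j p.1) (s p.1) (y p.1) :=
    hul.comp Computable.fst
  refine cand (d_le hul' (by fun_prop)) ?_
  refine c_allB (α := α × ℕ) (q := fun p w => !(rel (S p.1) (j p.1) (s p.1) w) ||
    dn (jt (j p.1)) (inA (S p.1)) p.2 w) ?_ hul'
  refine cor (cnot ?_) ?_
  · exact c_rel (S := fun p : (α × ℕ) × ℕ => S p.1.1) (j := fun p => j p.1.1)
      (s := fun p => s p.1.1) (w := fun p => p.2) (by fun_prop) (by fun_prop) (by fun_prop)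
      (by fun_prop)
  · exact c_dn (e := fun p : (α × ℕ) × ℕ => jt (j p.1.1)) (X := fun p => inA (S p.1.1))
      (n := fun p => p.1.2) (y := fun p => p.2) (c_jt (by fun_prop)) (by fun_prop)
      (by fun_prop) (c_inA' (S := fun p : (α × ℕ) × ℕ => S p.1.1) (by fun_prop))

theorem c_val1 {S : α → St} {j s y : α → ℕ} (hS : Computable S)
    (hj : Computable j) (hs : Computable s) (hy : Computable y) :
    Computable fun a => val1 (S a) (j a) (s a) (y a) := by
  unfold val1
  have hul := c_ul hS hj hs hy
  have huv := c_uv hS hj hs hy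
  refine cand ?_ (cand (d_le huv hs) ?_)
  · refine c_cv (X := fun a => orc (S a) (j a) (s a)) (c_jf hj) hs hy (c_Ap (c_jm hj) hy hs) ?_
    exact c_orc (S := fun p : α × ℕ => S p.1) (j := fun p => j p.1) (s := fun p => s p.1)
      (x := fun p => p.2) (by fun_prop) (by fun_prop) (by fun_prop) (by fun_prop)
  · refine c_allB (q := fun a w => !(rel (S a) (j a) (s a) w) || cv (jt (j a)) (inA (S a))
      (uv (S a) (j a) (s a) (y a)) w (Ap (jm (j a)) w (s a))) ?_ hul
    refine cor (cnot ?_) ?_
    · exact c_rel (S := fun p : α × ℕ => S p.1) (j := fun p => j p.1)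
        (s := fun p => s p.1) (w := fun p => p.2) (by fun_prop) (by fun_prop) (by fun_prop)
        (by fun_prop)
    · refine c_cv (e := fun p : α × ℕ => jt (j p.1)) (X := fun p => inA (S p.1))
        (n := fun p => uv (S p.1) (j p.1) (s p.1) (y p.1)) (y := fun p => p.2)
        (b := fun p => Ap (jm (j p.1)) p.2 (s p.1)) (c_jt (by fun_prop))
        (huv.comp Computable.fst) (by fun_prop)
        (c_Ap (c_jm (by fun_prop)) (by fun_prop) (by fun_prop))
        (c_inA' (S := fun p : α × ℕ => S p.1) (by fun_prop))

theorem c_val {S : α → St} {j s y : α → ℕ} (hS : Computable S)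
    (hj : Computable j) (hs : Computable s) (hy : Computable y) :
    Computable fun a => val (S a) (j a) (s a) (y a) := by
  unfold val
  refine c_allB (q := fun a y => val1 (S a) (j a) (s a) y) ?_ (by fun_prop)
  exact c_val1 (S := fun p : α × ℕ => S p.1) (j := fun p => j p.1) (s := fun p => s p.1)
    (y := fun p => p.2) (by fun_prop) (by fun_prop) (by fun_prop) (by fun_prop)

theorem c_cc {T : α → TT} {j : α → ℕ} (hT : Computable T) (hj : Computable j) :
    Computable fun a => cc (T a) (j a) := by
  unfold cc
  refine c_supL hT ?_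
  refine ccond (cand (d_lt (by fun_prop) (by fun_prop)) (d_eq (c_jm (by fun_prop))
    (c_jm (by fun_prop)))) (by fun_prop) (by fun_prop)

theorem c_sJ {s : α → ℕ} (hs : Computable s) : Computable fun a => sJ (s a) := by
  unfold sJ; fun_prop
theorem c_sY {s : α → ℕ} (hs : Computable s) : Computable fun a => sY (s a) := by
  unfold sY; fun_prop

theorem c_nent {S : α → St} {s y : α → ℕ} (hS : Computable S) (hs : Computable s)
    (hy : Computable y) : Computable fun a => nent (S a) (s a) (y a) := by
  unfold nent
  have h1 := c_sJ hs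
  have h3 : Computable fun a => cc (S a).1 (sJ (s a)) := c_cc (by fun_prop) h1
  have h4 : Computable fun a => uv (S a) (sJ (s a)) (s a) (y a) := c_uv hS h1 hs hy
  fun_prop

theorem c_nents {S : α → St} {s y : α → ℕ} (hS : Computable S) (hs : Computable s)
    (hy : Computable y) : Computable fun a => nents (S a) (s a) (y a) := by
  have h := Computable.nat_rec (f := y) (g := fun _ : α => ([] : TT))
    (h := fun (a : α) (p : ℕ × TT) => nent (S a) (s a) p.1 :: p.2) hy (Computable.const [])
    (show Computable fun p : α × (ℕ × TT) => nent (S p.1) (s p.1) p.2.1 :: p.2.2 by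
      have h1 := c_nent (S := fun p : α × (ℕ × TT) => S p.1) (s := fun p => s p.1)
        (y := fun p => p.2.1) (by fun_prop) (by fun_prop) (by fun_prop)
      exact ccons h1 (by fun_prop))
  refine h.of_eq fun a => ?_
  generalize y a = n
  induction n with
  | zero => rfl
  | succ n ih => simp only [nents]; rw [← ih]

theorem c_newT {S : α → St} {s : α → ℕ} (hS : Computable S) (hs : Computable s) :
    Computable fun a => newT (S a) (s a) := by
  unfold newT
  have h1 := c_sY hs
  exact ccond (c_val hS (c_sJ hs) hs (c_sY hs))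
    (cappend (c_nents hS hs (by fun_prop)) (by fun_prop)) (by fun_prop)

theorem c_fol {F : α → FF} {k : α → ℕ} (hF : Computable F) (hk : Computable k) :
    Computable fun a => fol (F a) (k a) := by
  unfold fol
  exact Primrec.option_getD.to_comp.comp (by fun_prop) (by fun_prop)

theorem c_inval {T : α → TT} {F : α → FF} {k : α → ℕ} (hT : Computable T) (hF : Computable F)
    (hk : Computable k) : Computable fun a => inval (T a) (F a) (k a) := by
  unfold inval
  refine c_exL hT ?_
  have h := c_fol hF hk
  have h' : Computable fun p : α × ((ℕ × ℕ) × (ℕ × ℕ)) => fol (F p.1) (k p.1) :=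
    h.comp Computable.fst
  exact cand (d_le (by fun_prop) (by fun_prop)) (d_lt (by fun_prop) (by fun_prop))

theorem c_W {e s x : α → ℕ} (he : Computable e) (hs : Computable s) (hx : Computable x) :
    Computable fun a => wst ℕ (e a) (s a) (x a) :=
  (wst_comp (α := ℕ)).comp (g := fun a => ((e a, s a), x a)) (by fun_prop)

theorem c_wIn {S : α → St} {e x s : α → ℕ} (hS : Computable S) (he : Computable e)
    (hx : Computable x) (hs : Computable s) :
    Computable fun a => wIn (e a) (x a) (s a) (S a) := by
  unfold wIn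
  refine c_exB (q := fun a l => cv (e a).unpair.2.unpair.1 (wst ℕ (e a).unpair.1 (s a)) l (x a)
    false && allB (fun z => cv (e a).unpair.2.unpair.2 (inA (S a)) (s a) z
      (wst ℕ (e a).unpair.1 (s a) z)) l) ?_ (by fun_prop)
  refine cand ?_ ?_
  · refine c_cv (e := fun p : α × ℕ => (e p.1).unpair.2.unpair.1)
      (X := fun p => wst ℕ (e p.1).unpair.1 (s p.1)) (n := fun p => p.2) (y := fun p => x p.1)
      (b := fun _ => false) (by fun_prop) (by fun_prop) (by fun_prop) (by fun_prop) ?_
    exact c_W (e := fun p : (α × ℕ) × ℕ => (e p.1.1).unpair.1) (s := fun p => s p.1.1)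
      (x := fun p => p.2) (by fun_prop) (by fun_prop) (by fun_prop)
  · refine c_allB (α := α × ℕ) (q := fun p z => cv (e p.1).unpair.2.unpair.2 (inA (S p.1))
      (s p.1) z (wst ℕ (e p.1).unpair.1 (s p.1) z)) ?_ (by fun_prop)
    refine c_cv (e := fun p : (α × ℕ) × ℕ => (e p.1.1).unpair.2.unpair.2)
      (X := fun p => inA (S p.1.1)) (n := fun p => s p.1.1) (y := fun p => p.2)
      (b := fun p => wst ℕ (e p.1.1).unpair.1 (s p.1.1) p.2) (by fun_prop) (by fun_prop)
      (by fun_prop) ?_ (c_inA' (S := fun p : (α × ℕ) × ℕ => S p.1.1) (by fun_prop))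
    exact c_W (e := fun p : (α × ℕ) × ℕ => (e p.1.1).unpair.1) (s := fun p => s p.1.1)
      (x := fun p => p.2) (by fun_prop) (by fun_prop) (by fun_prop)

theorem c_wOut {e x s : α → ℕ} (he : Computable e)
    (hx : Computable x) (hs : Computable s) :
    Computable fun a => wOut (e a) (x a) (s a) := by
  unfold wOut
  refine c_exB (q := fun a l => cv (e a).unpair.2.unpair.1 (wst ℕ (e a).unpair.1 (s a)) l (x a)
    true) ?_ (by fun_prop)
  refine c_cv (e := fun p : α × ℕ => (e p.1).unpair.2.unpair.1)
    (X := fun p => wst ℕ (e p.1).unpair.1 (s p.1)) (n := fun p => p.2) (y := fun p => x p.1)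
    (b := fun _ => true) (by fun_prop) (by fun_prop) (by fun_prop) (by fun_prop) ?_
  exact c_W (e := fun p : (α × ℕ) × ℕ => (e p.1.1).unpair.1) (s := fun p => s p.1.1)
    (x := fun p => p.2) (by fun_prop) (by fun_prop) (by fun_prop)

theorem c_wants {S : α → St} {s k : α → ℕ} (hS : Computable S) (hs : Computable s)
    (hk : Computable k) : Computable fun a => wants (S a) (s a) (k a) := by
  unfold wants
  have h1 : Computable fun a => fol (S a).2.1 (k a) := c_fol (by fun_prop) hk
  refine cor (cand (d_eq (by fun_prop) (by fun_prop)) (c_wIn hS hk (by fun_prop) hs))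
    (cand (d_eq (by fun_prop) (by fun_prop)) (c_wOut hk (by fun_prop) hs))

theorem c_kk {S : α → St} {s : α → ℕ} (hS : Computable S) (hs : Computable s) :
    Computable fun a => kk (S a) (s a) := by
  unfold kk
  refine c_lst (q := fun a k => inval (newT (S a) (s a)) (S a).2.1 k || wants (S a) (s a) k) ?_
    (by fun_prop)
  refine cor ?_ ?_
  · exact c_inval (T := fun p : α × ℕ => newT (S p.1) (s p.1)) (F := fun p => (S p.1).2.1)
      (k := fun p => p.2) (c_newT (by fun_prop) (by fun_prop)) (by fun_prop) (by fun_prop)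
  · exact c_wants (S := fun p : α × ℕ => S p.1) (s := fun p => s p.1) (k := fun p => p.2)
      (by fun_prop) (by fun_prop) (by fun_prop)

theorem c_take {F : α → FF} {k : α → ℕ} (hF : Computable F) (hk : Computable k) :
    Computable fun a => (F a).take (k a) := Primrec.list_take.to_comp.comp hk hF
theorem c_drop {F : α → FF} {k : α → ℕ} (hF : Computable F) (hk : Computable k) :
    Computable fun a => (F a).drop (k a) := Primrec.list_drop.to_comp.comp hk hF

theorem c_nF {S : α → St} {s : α → ℕ} (hS : Computable S) (hs : Computable s) :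
    Computable fun a => nF (S a) (s a) := by
  unfold nF
  have hk := c_kk hS hs
  have h1 : Computable fun a => fol (S a).2.1 (kk (S a) (s a)) := c_fol (by fun_prop) hk
  have h2 : Computable fun a => (S a).2.1.take (kk (S a) (s a)) := c_take (by fun_prop) hk
  have h3 : Computable fun a => (S a).2.1.drop (kk (S a) (s a)) := c_drop (by fun_prop) hk
  have h4 : Computable fun a => (S a).2.1.drop (kk (S a) (s a) + 1) :=
    c_drop (by fun_prop) (by fun_prop)
  refine ccond (d_lt hk (by fun_prop)) (ccond ?_ (by fun_prop) (by fun_prop)) (by fun_prop)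
  exact c_inval (c_newT hS hs) (by fun_prop) hk

theorem c_run : Computable run := by
  have h := Computable.nat_rec (α := ℕ) (f := fun n => n) (g := fun _ : ℕ => (([], ([], [])) : St))
    (h := fun (_ : ℕ) (y : ℕ × St) => step y.2 y.1) (by fun_prop) (by fun_prop)
    (show Computable fun p : ℕ × (ℕ × St) => step p.2.2 p.2.1 by
      unfold step
      exact cpair (c_newT (by fun_prop) (by fun_prop)) (c_nF (by fun_prop) (by fun_prop)))
  refine h.of_eq fun n => ?_
  induction n with
  | zero => rfl
  | succ n ih => simp only [run]; rw [← ih]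

end comput

end Pool.Agent.H587R2.NCE
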