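import Pool.Agent.H587R2.NCE.Base

/-!
Indices of functionals, listing of computable approximations, `n`-c.e. sets.
-/

namespace Pool.Agent.H587R2.NCE

open Pool.Agent.Helper446 Pool.Agent.Helper446.RE Pool.Agent.Helper446.Oracle
open Encodable Nat.Partrec

/-- The set given by a Boolean function. -/
def st (X : ℕ → Bool) : Set ℕ := {x | X x = true}

theorem exists_index {X : ℕ → Bool} {S : ℕ × Bool → Prop} (h : REIn (st X) S) :
    ∃ e, ∀ y b, (∃ n, ax e X n y b = true) ↔ S (y, b) := by
  obtain ⟨R, hR, hS⟩ := h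
  have hR' : REPred fun q : (ℕ × Bool) × List Bool => ∃ c : List ℕ × List ℕ, R q.1 c ∧
      (∀ x ∈ c.1, q.2[x]? = some true) ∧ ∀ x ∈ c.2, q.2[x]? = some false := by
    refine RE.ex (p := fun (q : (ℕ × Bool) × List Bool) (c : List ℕ × List ℕ) => R q.1 c ∧
      (∀ x ∈ c.1, q.2[x]? = some true) ∧ ∀ x ∈ c.2, q.2[x]? = some false) ?_
    refine RE.and ?_ (RE.and ?_ ?_)
    · exact RE.comp hR (f := fun p : ((ℕ × Bool) × List Bool) × (List ℕ × List ℕ) =>
        (p.1.1, p.2)) (by fun_prop)
    · refine RE.all_mem (p := fun (p : ((ℕ × Bool) × List Bool) × (List ℕ × List ℕ)) (x : ℕ) =>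
        p.1.2[x]? = some true) (l := fun p => p.2.1) ?_ (by fun_prop)
      exact RE.eq (by fun_prop) (by fun_prop)
    · refine RE.all_mem (p := fun (p : ((ℕ × Bool) × List Bool) × (List ℕ × List ℕ)) (x : ℕ) =>
        p.1.2[x]? = some false) (l := fun p => p.2.2) ?_ (by fun_prop)
      exact RE.eq (by fun_prop) (by fun_prop)
  obtain ⟨e, he⟩ := wst_univ hR'
  refine ⟨e, fun y b => ?_⟩
  rw [hS]
  constructor
  · rintro ⟨n, hn⟩
    obtain ⟨l, hl, h1⟩ := ax_iff.1 hn
    obtain ⟨c, hc, h2, h3⟩ := (he ((y, b), sg X l)).2 ⟨_, h1⟩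
    have hlt : ∀ {x : ℕ} {b : Bool}, (sg X l)[x]? = some b → X x = b := by
      intro x b hx
      have hxl : x < l := by
        by_contra hcon
        rw [List.getElem?_eq_none (by rw [sg_length]; omega)] at hx
        cases hx
      rw [sg_get X hxl] at hx
      simpa using hx
    refine ⟨c, hc, fun x hx => hlt (h2 x hx), fun x hx => ?_⟩
    have := hlt (h3 x hx)
    show ¬ (X x = true)
    rw [this]; simp
  · rintro ⟨c, hc, h2, h3⟩
    obtain ⟨l, hl⟩ : ∃ l, ∀ x, x ∈ c.1 ∨ x ∈ c.2 → x < l := by
      refine ⟨(c.1 ++ c.2).foldl max 0 + 1, fun x hx => ?_⟩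
      have : ∀ (L : List ℕ) (a : ℕ), (a ≤ L.foldl max a) ∧ ∀ x ∈ L, x ≤ L.foldl max a := by
        intro L
        induction L with
        | nil => intro a; simp
        | cons b L ih =>
          intro a
          simp only [List.foldl_cons, List.mem_cons, forall_eq_or_imp]
          have h1 := ih (max a b)
          exact ⟨by omega, by omega, h1.2⟩
      have h4 := (this (c.1 ++ c.2) 0).2 x (List.mem_append.2 hx)
      omega
    have h4 : ∃ s, wst ((ℕ × Bool) × List Bool) e s ((y, b), sg X l) = true := by
      refine (he _).1 ⟨c, hc, fun x hx => ?_, fun x hx => ?_⟩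
      · show (sg X l)[x]? = some true
        rw [sg_get X (hl x (Or.inl hx))]
        have := h2 x hx
        simp only [st, Set.mem_ofPred_eq] at this
        rw [this]
      · show (sg X l)[x]? = some false
        rw [sg_get X (hl x (Or.inr hx))]
        have := h3 x hx
        simp only [st, Set.mem_ofPred_eq, Bool.not_eq_true] at this
        rw [this]
    obtain ⟨s, hs⟩ := h4
    exact ⟨max l s, ax_iff.2 ⟨l, le_max_left _ _, wst_mono (le_max_right _ _) hs⟩⟩

/-- Indices and values. -/
theorem index_cv {e : ℕ} {X M : ℕ → Bool} {P : ℕ → Prop}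
    (h : ∀ y b, (∃ n, ax e X n y b = true) ↔ (P y ∧ M y = b)) :
    (∀ y, P y → ∃ n, cv e X n y (M y) = true) ∧
      ∀ y n b, cv e X n y b = true → P y ∧ M y = b := by
  have key : ∀ y n b, cv e X n y b = true → P y ∧ M y = b := by
    intro y n b hc
    obtain ⟨l, hl, h1, h2, h3⟩ := cv_iff.1 hc
    cases b
    · unfold dn at h1
      rw [h3, Bool.false_or] at h1
      exact (h y false).1 ⟨l, h1⟩
    · exact (h y true).1 ⟨l, h3⟩
  refine ⟨fun y hy => ?_, key⟩
  obtain ⟨n, hn⟩ := (h y (M y)).2 ⟨hy, rfl⟩
  have hd : dn e X n y = true := by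
    unfold dn
    cases hM : M y
    · rw [hM] at hn; rw [hn, Bool.or_true]
    · rw [hM] at hn; rw [hn, Bool.true_or]
  refine ⟨n, ?_⟩
  have hc : cv e X n y (vl e X n y) = true := by
    unfold cv; rw [hd]; simp
  rw [(key y n _ hc).2]
  exact hc

theorem index_total {X M : ℕ → Bool} (h1 : REIn (st X) fun y => M y = true)
    (h2 : REIn (st X) fun y => M y = false) :
    ∃ e, (∀ y, ∃ n, cv e X n y (M y) = true) ∧ ∀ y n b, cv e X n y b = true → M y = b := by
  have h3 : REIn (st X) fun p : ℕ × Bool => (M p.1 = true ∧ p.2 = true) ∨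
      (M p.1 = false ∧ p.2 = false) := by
    refine REIn.or (REIn.and (h1.comp (by fun_prop)) (REIn.of_re ?_))
      (REIn.and (h2.comp (by fun_prop)) (REIn.of_re ?_))
    · exact RE.eq (by fun_prop) (by fun_prop)
    · exact RE.eq (by fun_prop) (by fun_prop)
  obtain ⟨e, he⟩ := exists_index h3
  have h4 := index_cv (e := e) (X := X) (M := M) (P := fun _ => True) (by
    intro y b
    rw [he]
    cases b <;> simp)
  exact ⟨e, fun y => h4.1 y trivial, fun y n b h => (h4.2 y n b h).2⟩

theorem index_partial {X M : ℕ → Bool} {P : ℕ → Prop} (h1 : REIn (st X) fun y => P y ∧ M y = true)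
    (h2 : REIn (st X) fun y => P y ∧ M y = false) :
    ∃ e, (∀ y, P y → ∃ n, cv e X n y (M y) = true) ∧
      ∀ y n b, cv e X n y b = true → P y ∧ M y = b := by
  have h3 : REIn (st X) fun p : ℕ × Bool => ((P p.1 ∧ M p.1 = true) ∧ p.2 = true) ∨
      ((P p.1 ∧ M p.1 = false) ∧ p.2 = false) := by
    refine REIn.or (REIn.and (h1.comp (by fun_prop)) (REIn.of_re ?_))
      (REIn.and (h2.comp (by fun_prop)) (REIn.of_re ?_))
    · exact RE.eq (by fun_prop) (by fun_prop)
    · exact RE.eq (by fun_prop) (by fun_prop)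
  obtain ⟨e, he⟩ := exists_index h3
  refine ⟨e, index_cv (by
    intro y b
    rw [he]
    cases b <;> simp)⟩

/-! ### Listing of computable approximations -/

/-- Least time at which the `c`-th function is not yet known at stage `s`. -/
def tau (c w s : ℕ) : ℕ :=
  lst (fun t => !(Code.evaln s (Denumerable.ofNat Code c) (Nat.pair w t)).isSome) (s + 1)

/-- The `c`-th approximation. -/
def Ap (c w s : ℕ) : Bool := bif decide (tau c w s = 0) then false else
  decide (Code.evaln s (Denumerable.ofNat Code c) (Nat.pair w (tau c w s - 1)) = some 1)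

section
variable {α : Type*} [Primcodable α]

theorem c_evaln {s c x : α → ℕ} (hs : Computable s) (hc : Computable c) (hx : Computable x) :
    Computable fun a => Code.evaln (s a) (Denumerable.ofNat Code (c a)) (x a) := by
  have h1 : Computable fun x : (ℕ × Code) × ℕ => (Code.evaln x.1.1 x.1.2 x.2) :=
    Code.primrec_evaln.to_comp
  have h2 : Computable fun a => Denumerable.ofNat Code (c a) := (Computable.ofNat Code).comp hc
  exact h1.comp ((hs.pair h2).pair hx)

theorem c_tau {c w s : α → ℕ} (hc : Computable c) (hw : Computable w) (hs : Computable s) :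
    Computable fun a => tau (c a) (w a) (s a) := by
  unfold tau
  refine c_lst (q := fun a t => !(Code.evaln (s a) (Denumerable.ofNat Code (c a))
    (Nat.pair (w a) t)).isSome) ?_ (by fun_prop)
  refine cnot (cisSome ?_)
  exact c_evaln (s := fun p : α × ℕ => s p.1) (c := fun p => c p.1)
    (x := fun p => Nat.pair (w p.1) p.2) (by fun_prop) (by fun_prop) (by fun_prop)

theorem c_Ap {c w s : α → ℕ} (hc : Computable c) (hw : Computable w) (hs : Computable s) :
    Computable fun a => Ap (c a) (w a) (s a) := by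
  unfold Ap
  have h1 := c_tau hc hw hs
  refine ccond (cdecide (cp_eq h1 (by fun_prop))) (by fun_prop) (cdecide (cp_eq ?_ (by fun_prop)))
  exact c_evaln (s := s) (c := c) (x := fun a => Nat.pair (w a) (tau (c a) (w a) (s a) - 1))
    hs hc (by fun_prop)

end

theorem Ap_univ {g : ℕ → ℕ → Bool} (hg : Computable fun p : ℕ × ℕ => g p.1 p.2)
    (h0 : ∀ w, g w 0 = false) : ∃ c, ∀ w, ∃ τ : ℕ → ℕ, Monotone τ ∧ (∀ n, ∃ s, n ≤ τ s) ∧
      ∀ s, Ap c w s = g w (τ s) := by
  have h1 : Computable fun n : ℕ => (bif g n.unpair.1 n.unpair.2 then 1 else 0 : ℕ) := by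
    have := hg.comp (g := fun n : ℕ => n.unpair) (by fun_prop)
    exact ccond this (by fun_prop) (by fun_prop)
  obtain ⟨cd, hcd⟩ := Code.exists_code.1 (Partrec.nat_iff.1 h1.partrec)
  refine ⟨encode cd, fun w => ?_⟩
  have hev : ∀ t, Code.eval cd (Nat.pair w t) = Part.some (bif g w t then 1 else 0) := by
    intro t
    rw [hcd]
    simp
  have hval : ∀ s t v, Code.evaln s cd (Nat.pair w t) = some v →
      v = (bif g w t then 1 else 0) := by
    intro s t v hv
    have := Code.evaln_sound (Option.mem_def.2 hv)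
    rw [hev] at this
    exact Part.mem_some_iff.1 this
  have hsome : ∀ t, ∃ k, ∀ s ≥ k, (Code.evaln s cd (Nat.pair w t)).isSome = true := by
    intro t
    have : (bif g w t then 1 else 0) ∈ Code.eval cd (Nat.pair w t) := by
      rw [hev]; exact Part.mem_some _
    obtain ⟨k, hk⟩ := Code.evaln_complete.1 this
    refine ⟨k, fun s hs => ?_⟩
    have := Code.evaln_mono hs hk
    rw [Option.mem_def] at this
    rw [this]; rfl
  have hmon : ∀ {s s' t}, s ≤ s' → (Code.evaln s cd (Nat.pair w t)).isSome = true →
      (Code.evaln s' cd (Nat.pair w t)).isSome = true := by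
    intro s s' t hs h
    obtain ⟨y, hy⟩ := Option.isSome_iff_exists.1 h
    have := Code.evaln_mono hs (Option.mem_def.2 hy)
    rw [Option.mem_def] at this
    rw [this]; rfl
  have htau : ∀ s, tau (encode cd) w s =
      lst (fun t => !(Code.evaln s cd (Nat.pair w t)).isSome) (s + 1) := by
    intro s; unfold tau; rw [Denumerable.ofNat_encode]
  have hlt : ∀ s t, t < tau (encode cd) w s →
      (Code.evaln s cd (Nat.pair w t)).isSome = true := by
    intro s t ht
    rw [htau] at ht
    have := lst_min ht
    simpa using this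
  have hge : ∀ s t, tau (encode cd) w s ≤ t → (∀ t' ≤ t, (Code.evaln s cd
      (Nat.pair w t')).isSome = true) → s < t := by
    intro s t ht h
    by_contra hcon
    rw [htau] at ht
    have h2 : lst (fun t => !(Code.evaln s cd (Nat.pair w t)).isSome) (s + 1) < s + 1 := by omega
    have h3 := lst_of_lt h2
    simp only [h _ ht] at h3
    cases h3
  refine ⟨fun s => tau (encode cd) w s - 1, ?_, ?_, ?_⟩
  · intro s s' hs
    have : tau (encode cd) w s ≤ tau (encode cd) w s' := by
      by_contra hcon
      have h2 := hge s' (tau (encode cd) w s') le_rfl (fun t' ht' =>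
        hmon hs (hlt s t' (by omega)))
      have h3 : tau (encode cd) w s ≤ s + 1 := by rw [htau]; exact lst_le _ _
      omega
    show tau (encode cd) w s - 1 ≤ tau (encode cd) w s' - 1
    omega
  · intro n
    choose k hk using hsome
    refine ⟨max n ((Finset.range (n + 1)).sup k), ?_⟩
    by_contra hcon
    simp only at hcon
    have h2 := hge (max n ((Finset.range (n + 1)).sup k)) n (by omega) (fun t' ht' => by
      apply hk
      exact le_trans (Finset.le_sup (f := k) (Finset.mem_range.2 (by omega)))
        (le_max_right _ _))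
    omega
  · intro s
    unfold Ap
    by_cases h : tau (encode cd) w s = 0
    · simp only [h, decide_true, cond_true, Nat.zero_sub, h0]
    · rw [show decide (tau (encode cd) w s = 0) = false from by simp [h]]
      simp only [cond_false, Denumerable.ofNat_encode]
      obtain ⟨v, hv⟩ := Option.isSome_iff_exists.1 (hlt s (tau (encode cd) w s - 1) (by omega))
      rw [hv, hval _ _ _ hv]
      cases g w (tau (encode cd) w s - 1) <;> simp

/-! ### n-c.e. sets -/

/-- Changes after composition with a monotone reparametrisation. -/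
theorem changes_comp (f : ℕ → Bool) {τ : ℕ → ℕ} (hτ : Monotone τ) :
    {s | f (τ s) ≠ f (τ (s + 1))}.encard ≤ {t | f t ≠ f (t + 1)}.encard := by
  have h : ∀ s, ∃ t, f (τ s) ≠ f (τ (s + 1)) → (f t ≠ f (t + 1) ∧ τ s ≤ t ∧ t < τ (s + 1)) := by
    intro s
    by_cases hne : f (τ s) ≠ f (τ (s + 1))
    · by_contra hcon
      push Not at hcon
      apply hne
      have h1 : ∀ t, τ s ≤ t → t ≤ τ (s + 1) → f (τ s) = f t := by
        intro t ht
        induction t, ht using Nat.le_induction with
        | base => intro _; rfl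
        | succ t ht ih =>
          intro h2
          rw [ih (by omega)]
          by_contra h3
          have := (hcon t).2 h3 ht
          omega
      exact h1 _ (hτ (Nat.le_succ s)) le_rfl
    · exact ⟨0, fun h => absurd h hne⟩
  choose F hF using h
  refine Set.encard_le_encard_of_injOn (f := F) ?_ ?_
  · intro s hs
    exact (hF s hs).1
  · intro s hs s' hs' heq
    obtain ⟨_, h2, h3⟩ := hF s hs
    obtain ⟨_, h5, h6⟩ := hF s' hs'
    rcases lt_trichotomy s s' with h | h | h
    · have := hτ (show s + 1 ≤ s' by omega)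
      omega
    · exact h
    · have := hτ (show s' + 1 ≤ s by omega)
      omega

/-- Changes of a monotone bounded counter. -/
theorem changes_mono {f : ℕ → ℕ} (hf : Monotone f) {n : ℕ} (hn : ∀ s, f s ≤ n) :
    {s | f s ≠ f (s + 1)}.encard ≤ n := by
  have h1 : {s | f s ≠ f (s + 1)}.encard ≤ (Finset.Icc 1 n : Set ℕ).encard := by
    refine Set.encard_le_encard_of_injOn (f := fun s => f (s + 1)) ?_ ?_
    · intro s hs
      have h2 := hf (Nat.le_succ s)
      have h3 : f s ≠ f (s + 1) := hs
      simp only [Finset.coe_Icc, Set.mem_Icc]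
      exact ⟨by have : f s ≤ f (s+1) := h2; omega, hn _⟩
    · intro s hs s' hs' heq
      have h3 : f s ≠ f (s + 1) := hs
      have h4 : f s' ≠ f (s' + 1) := hs'
      have h5 := hf (Nat.le_succ s)
      have h6 := hf (Nat.le_succ s')
      simp only at heq
      rcases lt_trichotomy s s' with h | h | h
      · have := hf (show s + 1 ≤ s' by omega)
        simp only [Nat.succ_eq_add_one] at h5 h6
        omega
      · exact h
      · have := hf (show s' + 1 ≤ s by omega)
        simp only [Nat.succ_eq_add_one] at h5 h6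
        omega
  refine h1.trans ?_
  rw [Set.encard_coe_eq_coe_finsetCard]
  simp

end Pool.Agent.H587R2.NCE
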