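import Pool.Agent.H587R2.NCE.Ver4

/-!
Reduction to sets which are computable from `A` on the elements that ever enter.
-/

namespace Pool.Agent.H587R2.NCE

open Pool.Agent.Helper446 Pool.Agent.Helper446.RE Pool.Agent.Helper446.Oracle
open Encodable Nat.Partrec

/-- Turing reducibility of `X` to `Y` (as sets). -/
def R (X Y : ℕ → Bool) : Prop :=
  (REIn (st Y) fun w => X w = true) ∧ REIn (st Y) fun w => X w = false

theorem R_iff {X Y : ℕ → Bool} : R X Y ↔
    TuringReducible (Defs.chi (st X)) (Defs.chi (st Y)) := by
  rw [turingReducible_iff]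
  unfold R
  have h : (fun w => X w = false) = fun w => w ∉ st X := by
    funext w
    show (X w = false) = ¬ (X w = true)
    simp
  rw [h]
  rfl

theorem R_refl (X : ℕ → Bool) : R X X := R_iff.2 (TuringReducible.refl _)

theorem R_trans {X Y Z : ℕ → Bool} (h1 : R X Y) (h2 : R Y Z) : R X Z :=
  R_iff.2 ((R_iff.1 h1).trans (R_iff.1 h2))

theorem R_true {X Y : ℕ → Bool} (h : R X Y) {α : Type*} [Primcodable α] {f : α → ℕ}
    (hf : Computable f) (b : Bool) : REIn (st Y) fun a => X (f a) = b := by
  cases b
  · exact h.2.comp hf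
  · exact h.1.comp hf

/-- Approximations with at most `n` changes. -/
structure Apx (n : ℕ) (g : ℕ → ℕ → Bool) (M : ℕ → Bool) : Prop where
  comp : Computable fun p : ℕ × ℕ => g p.1 p.2
  zero : ∀ x, g x 0 = false
  lim : ∀ x, ∃ t, ∀ s ≥ t, g x s = M x
  chg : ∀ x, {s | g x s ≠ g x (s + 1)}.encard ≤ n

/-- `s` is the first entry stage. -/
def frst (g : ℕ → ℕ → Bool) (w s : ℕ) : Bool := g w s && allB (fun r => !(g w r)) s

theorem frst_iff {g : ℕ → ℕ → Bool} {w s : ℕ} : frst g w s = true ↔
    g w s = true ∧ ∀ r < s, g w r = false := by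
  unfold frst
  rw [Bool.and_eq_true, allB_iff]
  simp

theorem c_frst {g : ℕ → ℕ → Bool} (hg : Computable fun p : ℕ × ℕ => g p.1 p.2)
    {α : Type*} [Primcodable α] {w s : α → ℕ} (hw : Computable w) (hs : Computable s) :
    Computable fun a => frst g (w a) (s a) := by
  unfold frst
  refine cand (hg.comp (g := fun a => (w a, s a)) (by fun_prop)) ?_
  refine c_allB (q := fun a r => !(g (w a) r)) (cnot ?_) hs
  exact hg.comp (g := fun p : α × ℕ => (w p.1, p.2)) (by fun_prop)

theorem exists_frst {g : ℕ → ℕ → Bool} {w : ℕ} (h : ∃ s, g w s = true) :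
    ∃ s, frst g w s = true := by
  classical
  refine ⟨Nat.find h, frst_iff.2 ⟨Nat.find_spec h, fun r hr => ?_⟩⟩
  have := Nat.find_min h hr
  simpa using this

theorem frst_unique {g : ℕ → ℕ → Bool} {w s s' : ℕ} (h : frst g w s = true)
    (h' : frst g w s' = true) : s = s' := by
  rw [frst_iff] at *
  rcases lt_trichotomy s s' with h1 | h1 | h1
  · have := h'.2 s h1
    rw [h.1] at this; cases this
  · exact h1
  · have := h.2 s' h1
    rw [h'.1] at this; cases this

theorem reduction {X : ℕ → Bool} : ∀ (n : ℕ) (g : ℕ → ℕ → Bool) (B : ℕ → Bool), Apx n g B →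
    ¬ R B X → ∃ k ≤ n, ∃ (g' : ℕ → ℕ → Bool) (M : ℕ → Bool), Apx k g' M ∧ R M B ∧ ¬ R M X ∧
      (REIn (st X) fun w => (∃ s, g' w s = true) ∧ M w = true) ∧
      REIn (st X) fun w => (∃ s, g' w s = true) ∧ M w = false := by
  intro n
  induction n with
  | zero =>
    intro g B hg hB
    exfalso
    apply hB
    have h1 : ∀ w, B w = false := by
      intro w
      obtain ⟨t, ht⟩ := hg.lim w
      rw [← ht t le_rfl]
      have h2 : ∀ s, g w s = false := by
        intro s
        induction s with
        | zero => exact hg.zero w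
        | succ s ih =>
          have h3 := hg.chg w
          simp only [Nat.cast_zero, nonpos_iff_eq_zero, Set.encard_eq_zero] at h3
          by_contra h4
          have h5 : s ∈ {s | g w s ≠ g w (s + 1)} := by
            show g w s ≠ g w (s + 1)
            rw [ih]
            exact fun h => h4 h.symm
          rw [h3] at h5
          exact h5
      exact h2 t
    constructor
    · refine (REIn.of_re (RE.const False)).of_eq fun w => ?_
      rw [h1 w]; simp
    · refine (REIn.of_re (RE.const True)).of_eq fun w => ?_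
      rw [h1 w]; simp
  | succ n ih =>
    intro g B hg hB
    let N : ℕ → Bool := fun z => frst g z.unpair.1 z.unpair.2 && !(B z.unpair.1)
    let g' : ℕ → ℕ → Bool := fun z t => decide (z.unpair.2 ≤ t) &&
      (frst g z.unpair.1 z.unpair.2 && !(g z.unpair.1 t))
    have hg' : Apx n g' N := by
      constructor
      · refine cand (d_le (by fun_prop) (by fun_prop)) (cand ?_ (cnot ?_))
        · exact c_frst hg.comp (w := fun p : ℕ × ℕ => p.1.unpair.1) (s := fun p => p.1.unpair.2)
            (by fun_prop) (by fun_prop)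
        · exact hg.comp.comp (g := fun p : ℕ × ℕ => (p.1.unpair.1, p.2)) (by fun_prop)
      · intro z
        show (decide (z.unpair.2 ≤ 0) && (frst g z.unpair.1 z.unpair.2 && !(g z.unpair.1 0))) =
          false
        by_cases h : z.unpair.2 = 0
        · have : frst g z.unpair.1 z.unpair.2 = false := by
            rw [h, ← Bool.not_eq_true, frst_iff, hg.zero]
            simp
          rw [this]; simp
        · have : decide (z.unpair.2 ≤ 0) = false := by simp [h]
          rw [this]; simp
      · intro z
        obtain ⟨t, ht⟩ := hg.lim z.unpair.1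
        refine ⟨max t z.unpair.2, fun s hs => ?_⟩
        show (decide (z.unpair.2 ≤ s) && (frst g z.unpair.1 z.unpair.2 && !(g z.unpair.1 s))) =
          (frst g z.unpair.1 z.unpair.2 && !(B z.unpair.1))
        rw [ht s (by omega), decide_eq_true (by omega : z.unpair.2 ≤ s), Bool.true_and]
      · intro z
        obtain ⟨w, s, hz⟩ : ∃ w s, z = Nat.pair w s := ⟨_, _, (Nat.pair_unpair z).symm⟩
        have hg'z : ∀ t, g' z t = (decide (s ≤ t) && (frst g w s && !(g w t))) := by
          intro t
          show (decide (z.unpair.2 ≤ t) &&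
            (frst g z.unpair.1 z.unpair.2 && !(g z.unpair.1 t))) = _
          rw [hz, Nat.unpair_pair]
        cases hf : frst g w s
        · have : {t | g' z t ≠ g' z (t + 1)} = ∅ := by
            ext t
            simp only [Set.mem_ofPred_eq, Set.mem_empty_iff_false, iff_false, not_not]
            rw [hg'z, hg'z, hf]
            simp
          rw [this]; simp
        · obtain ⟨f1, f2⟩ := frst_iff.1 hf
          have hs : s ≠ 0 := by
            rintro rfl
            rw [hg.zero] at f1; cases f1
          have hsub : insert (s - 1) {t | g' z t ≠ g' z (t + 1)} ⊆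
              {t | g w t ≠ g w (t + 1)} := by
            intro t ht
            rcases Set.mem_insert_iff.1 ht with rfl | ht
            · show g w (s - 1) ≠ g w (s - 1 + 1)
              rw [show s - 1 + 1 = s by omega, f1, f2 (s - 1) (by omega)]
              simp
            · have ht' : g' z t ≠ g' z (t + 1) := ht
              rw [hg'z, hg'z, hf] at ht'
              show g w t ≠ g w (t + 1)
              intro heq
              apply ht'
              rcases lt_trichotomy (t + 1) s with h | h | h
              · rw [decide_eq_false (by omega), decide_eq_false (by omega)]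
                simp
              · rw [decide_eq_false (by omega), decide_eq_true (by omega), h, f1]
                simp
              · rw [decide_eq_true (by omega), decide_eq_true (by omega), heq]
          have hnot : s - 1 ∉ {t | g' z t ≠ g' z (t + 1)} := by
            intro ht
            have ht' : g' z (s - 1) ≠ g' z (s - 1 + 1) := ht
            apply ht'
            rw [hg'z, hg'z, decide_eq_false (by omega), show s - 1 + 1 = s by omega, f1]
            simp
          have h1 := Set.encard_le_encard hsub
          rw [Set.encard_insert_of_notMem hnot] at h1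
          have h2 := h1.trans (hg.chg w)
          have h3 : ({t | g' z t ≠ g' z (t + 1)}).encard + 1 ≤ (n : ℕ∞) + 1 := by
            refine h2.trans ?_
            push_cast
            exact le_rfl
          exact (ENat.add_le_add_iff_right (by simp)).1 h3
    have hNB : R N B := by
      have hc : Computable fun z : ℕ => frst g z.unpair.1 z.unpair.2 :=
        c_frst hg.comp (w := fun z : ℕ => z.unpair.1) (s := fun z => z.unpair.2)
          (by fun_prop) (by fun_prop)
      constructor
      · refine (REIn.and (REIn.of_re (RE.eq hc (Computable.const true)))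
          (R_true (R_refl B) (f := fun z : ℕ => z.unpair.1) (by fun_prop) false)).of_eq
          fun z => ?_
        show _ ↔ (frst g z.unpair.1 z.unpair.2 && !(B z.unpair.1)) = true
        simp
      · refine (REIn.or (REIn.of_re (RE.eq hc (Computable.const false)))
          (R_true (R_refl B) (f := fun z : ℕ => z.unpair.1) (by fun_prop) true)).of_eq
          fun z => ?_
        show _ ↔ (frst g z.unpair.1 z.unpair.2 && !(B z.unpair.1)) = false
        rw [Bool.and_eq_false_iff]
        simp
    by_cases hNX : R N X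
    · refine ⟨n + 1, le_rfl, g, B, hg, R_refl B, hB, ?_, ?_⟩
      · have h1 : REIn (st X) fun w => ∃ s, frst g w s = true ∧ N (Nat.pair w s) = false := by
          refine REIn.ex (S := fun w s => frst g w s = true ∧ N (Nat.pair w s) = false) ?_
          refine REIn.and (REIn.of_re (RE.eq ?_ (by fun_prop))) ?_
          · exact c_frst hg.comp (w := fun p : ℕ × ℕ => p.1) (s := fun p => p.2)
              (by fun_prop) (by fun_prop)
          · exact R_true hNX (f := fun p : ℕ × ℕ => Nat.pair p.1 p.2) (by fun_prop) false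
        refine h1.of_eq fun w => ?_
        constructor
        · rintro ⟨s, h2, h3⟩
          refine ⟨⟨s, (frst_iff.1 h2).1⟩, ?_⟩
          have h3' : (frst g (Nat.pair w s).unpair.1 (Nat.pair w s).unpair.2 &&
            !(B (Nat.pair w s).unpair.1)) = false := h3
          rw [Nat.unpair_pair, h2] at h3'
          simpa using h3'
        · rintro ⟨h2, h3⟩
          obtain ⟨s, hs⟩ := exists_frst h2
          refine ⟨s, hs, ?_⟩
          show (frst g (Nat.pair w s).unpair.1 (Nat.pair w s).unpair.2 &&
            !(B (Nat.pair w s).unpair.1)) = false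
          rw [Nat.unpair_pair, h3]
          simp
      · have h1 : REIn (st X) fun w => ∃ s, frst g w s = true ∧ N (Nat.pair w s) = true := by
          refine REIn.ex (S := fun w s => frst g w s = true ∧ N (Nat.pair w s) = true) ?_
          refine REIn.and (REIn.of_re (RE.eq ?_ (by fun_prop))) ?_
          · exact c_frst hg.comp (w := fun p : ℕ × ℕ => p.1) (s := fun p => p.2)
              (by fun_prop) (by fun_prop)
          · exact R_true hNX (f := fun p : ℕ × ℕ => Nat.pair p.1 p.2) (by fun_prop) true
        refine h1.of_eq fun w => ?_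
        constructor
        · rintro ⟨s, h2, h3⟩
          refine ⟨⟨s, (frst_iff.1 h2).1⟩, ?_⟩
          have h3' : (frst g (Nat.pair w s).unpair.1 (Nat.pair w s).unpair.2 &&
            !(B (Nat.pair w s).unpair.1)) = true := h3
          rw [Nat.unpair_pair, h2] at h3'
          simpa using h3'
        · rintro ⟨h2, h3⟩
          obtain ⟨s, hs⟩ := exists_frst h2
          refine ⟨s, hs, ?_⟩
          show (frst g (Nat.pair w s).unpair.1 (Nat.pair w s).unpair.2 &&
            !(B (Nat.pair w s).unpair.1)) = true
          rw [Nat.unpair_pair, hs, h3]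
          simp
    · obtain ⟨k, hk, g'', M, h1, h2, h3, h4, h5⟩ := ih g' N hg' hNX
      exact ⟨k, by omega, g'', M, h1, R_trans h2 hNB, h3, h4, h5⟩

/-- Parts of `M` are reducible to `M`. -/
theorem R_MI {m : ℕ} {M : ℕ → Bool} (hlim : ∀ w, ∃ t, ∀ s ≥ t, Ap m w s = M w) (i : Bool) :
    R (MI m M i) M := by
  have hr : Computable fun p : ℕ × ℕ => (run p.2).1 := by
    have := c_run.comp (Computable.snd (α := ℕ) (β := ℕ))
    fun_prop
  have hent : Computable fun p : ℕ × ℕ => ent m p.1 p.2 := by
    unfold ent
    refine c_exB (q := fun (p : ℕ × ℕ) t => Ap m p.1 t) ?_ (by fun_prop)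
    exact c_Ap (c := fun _ : (ℕ × ℕ) × ℕ => m) (w := fun p => p.1.1) (s := fun p => p.2)
      (by fun_prop) (by fun_prop) (by fun_prop)
  have hfe : Computable fun p : ℕ × ℕ => fe m p.1 p.2 :=
    c_fe (m := fun _ : ℕ × ℕ => m) (w := fun p => p.1) (s := fun p => p.2)
      (by fun_prop) (by fun_prop) (by fun_prop)
  have hside : Computable fun p : ℕ × ℕ => side (run p.2).1 m p.1 (fe m p.1 p.2) :=
    c_side hr (by fun_prop) (by fun_prop) hfe
  have hre : ∀ b, REPred fun w => ∃ t, ent m w t = true ∧
      side (run t).1 m w (fe m w t) = b := by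
    intro b
    refine RE.ex (p := fun w t => ent m w t = true ∧ side (run t).1 m w (fe m w t) = b) ?_
    exact RE.and (RE.eq hent (by fun_prop)) (RE.eq hside (by fun_prop))
  have hs : ∀ w t, ent m w t = true → side (run t).1 m w (fe m w t) = sdf m w := by
    intro w t he
    exact sdf_eq he (fe_spec he).1
  have hE : ∀ w, M w = true → ∃ t, ent m w t = true := by
    intro w hw
    obtain ⟨t, ht⟩ := hlim w
    exact ⟨t, ent_of_Ap (by rw [ht t le_rfl]; exact hw)⟩
  constructor
  · refine (REIn.and (R_refl M).1 (REIn.of_re (hre i))).of_eq fun w => ?_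
    unfold MI
    rw [Bool.and_eq_true, decide_eq_true_eq]
    constructor
    · rintro ⟨h1, t, h2, h3⟩
      exact ⟨h1, by rw [← hs w t h2]; exact h3⟩
    · rintro ⟨h1, h2⟩
      obtain ⟨t, ht⟩ := hE w h1
      exact ⟨h1, t, ht, by rw [hs w t ht]; exact h2⟩
  · refine (REIn.or (R_refl M).2 (REIn.of_re (hre (!i)))).of_eq fun w => ?_
    unfold MI
    rw [Bool.and_eq_false_iff, decide_eq_false_iff_not]
    constructor
    · rintro (h1 | ⟨t, h2, h3⟩)
      · exact Or.inl h1
      · right
        rw [← hs w t h2, h3]
        cases i <;> simp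
    · intro h
      by_cases h1 : M w = true
      · right
        obtain ⟨t, ht⟩ := hE w h1
        refine ⟨t, ht, ?_⟩
        rw [hs w t ht]
        rcases h with h | h
        · rw [h1] at h; cases h
        · revert h
          cases sdf m w <;> cases i <;> simp
      · left; simpa using h1

/-- Joins. -/
theorem R_jn {X Y Z : ℕ → Bool} (hX : R X Z) (hY : R Y Z) : R (jn X Y) Z := by
  have hd : Computable fun x : ℕ => x / 2 :=
    Primrec.nat_div.to_comp.comp Computable.id (Computable.const 2)
  have hm : Computable fun x : ℕ => x % 2 :=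
    Primrec.nat_mod.to_comp.comp Computable.id (Computable.const 2)
  have key : ∀ b, REIn (st Z) fun x => jn X Y x = b := by
    intro b
    refine (REIn.or (REIn.and (REIn.of_re (RE.eq hm (Computable.const 0))) (R_true hX hd b))
      (REIn.and (REIn.of_re (RE.ne hm (Computable.const 0))) (R_true hY hd b))).of_eq
      fun x => ?_
    unfold jn
    by_cases h : x % 2 = 0
    · simp [h]
    · simp [h]
  exact ⟨key true, key false⟩

theorem jn_even (X Y : ℕ → Bool) (x : ℕ) : jn X Y (2 * x) = X x := by
  unfold jn
  have h1 : 2 * x % 2 = 0 := by omega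
  have h2 : 2 * x / 2 = x := by omega
  rw [h1, h2]; rfl

theorem jn_odd (X Y : ℕ → Bool) (x : ℕ) : jn X Y (2 * x + 1) = Y x := by
  unfold jn
  have h1 : (2 * x + 1) % 2 = 1 := by omega
  have h2 : (2 * x + 1) / 2 = x := by omega
  rw [h1, h2]; rfl

theorem R_left (X Y : ℕ → Bool) : R X (jn X Y) := by
  have key : ∀ b, REIn (st (jn X Y)) fun x => X x = b := by
    intro b
    refine (R_true (R_refl (jn X Y)) (f := fun x : ℕ => 2 * x) (by fun_prop) b).of_eq
      fun x => ?_
    rw [jn_even]
  exact ⟨key true, key false⟩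

theorem R_right (X Y : ℕ → Bool) : R Y (jn X Y) := by
  have key : ∀ b, REIn (st (jn X Y)) fun x => Y x = b := by
    intro b
    refine (R_true (R_refl (jn X Y)) (f := fun x : ℕ => 2 * x + 1) (by fun_prop) b).of_eq
      fun x => ?_
    rw [jn_odd]
  exact ⟨key true, key false⟩

/-- `A` is 2-c.e. -/
theorem A_apx : Apx 2 (fun x s => inA (run s) x) A := by
  constructor
  · have hr : Computable fun p : ℕ × ℕ => run p.2 := c_run.comp Computable.snd
    exact c_inA hr Computable.fst
  · intro x; rfl
  · exact A_eventually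
  · intro x
    refine le_trans ?_ (changes_mono (stt_mono x) (fun s => stt_le s x))
    refine Set.encard_le_encard fun s hs => ?_
    have hs' : inA (run s) x ≠ inA (run (s + 1)) x := hs
    show stt s x ≠ stt (s + 1) x
    intro h
    apply hs'
    rw [inA_stt, inA_stt, h]

/-- The main theorem on `A` for Boolean functions. -/
theorem main {n : ℕ} (hn : 2 ≤ n) {g : ℕ → ℕ → Bool} {B : ℕ → Bool} (hg : Apx n g B)
    (hAB : R A B) (hBA : ¬ R B A) : ∃ (g' : ℕ → ℕ → Bool) (C : ℕ → Bool), Apx n g' C ∧
      R A C ∧ ¬ R C A ∧ R C B ∧ ¬ R B C := by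
  obtain ⟨k, hk, g1, M, hg1, hMB, hMA, h1, h2⟩ := reduction n g B hg hBA
  obtain ⟨m, hm⟩ := Ap_univ hg1.comp hg1.zero
  have hlim : ∀ w, ∃ t, ∀ s ≥ t, Ap m w s = M w := by
    intro w
    obtain ⟨τ, hτ1, hτ2, hτ3⟩ := hm w
    obtain ⟨t, ht⟩ := hg1.lim w
    obtain ⟨s0, hs0⟩ := hτ2 t
    refine ⟨s0, fun s hs => ?_⟩
    rw [hτ3 s]
    exact ht _ (hs0.trans (hτ1 hs))
  have hEnt : REPred fun w => Ent m w := by
    refine RE.ex (p := fun w t => Ap m w t = true) (RE.eq ?_ (by fun_prop))
    exact c_Ap (c := fun _ : ℕ × ℕ => m) (w := fun p => p.1) (s := fun p => p.2)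
      (by fun_prop) (by fun_prop) (by fun_prop)
  have hEg : ∀ w, Ent m w → ∃ s, g1 w s = true := by
    rintro w ⟨t, ht⟩
    obtain ⟨τ, hτ1, hτ2, hτ3⟩ := hm w
    exact ⟨τ t, by rw [← hτ3]; exact ht⟩
  have h1' : REIn (st A) fun w => Ent m w ∧ M w = true := by
    refine (REIn.and (REIn.of_re hEnt) h1).of_eq fun w => ?_
    exact ⟨fun h => ⟨h.1, h.2.2⟩, fun h => ⟨h.1, hEg w h.1, h.2⟩⟩
  have h2' : REIn (st A) fun w => Ent m w ∧ M w = false := by
    refine (REIn.and (REIn.of_re hEnt) h2).of_eq fun w => ?_
    exact ⟨fun h => ⟨h.1, h.2.2⟩, fun h => ⟨h.1, hEg w h.1, h.2⟩⟩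
  have hsplit := fun i => split hlim h1' h2' hMA i
  have hex : ∃ i, ¬ R (MI m M i) A := by
    by_contra hcon
    push Not at hcon
    apply hMA
    constructor
    · refine (REIn.or (hcon true).1 (hcon false).1).of_eq fun w => ?_
      unfold MI
      cases M w <;> cases sdf m w <;> simp
    · refine (REIn.and (hcon true).2 (hcon false).2).of_eq fun w => ?_
      unfold MI
      cases M w <;> cases sdf m w <;> simp
  obtain ⟨i, hi⟩ := hex
  refine ⟨fun x s => jn (inA (run s)) (Mi (T s) m i s) x, jn A (MI m M i), ?_,
    R_left _ _, fun h => hi (R_trans (R_right _ _) h),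
    R_jn hAB (R_trans (R_MI hlim i) hMB), fun h => hsplit i (R_trans hMB h)⟩
  constructor
  · have hr : Computable fun p : (ℕ × ℕ) × ℕ => run p.1.2 :=
      c_run.comp (Computable.snd.comp Computable.fst)
    refine c_jn (X := fun p : ℕ × ℕ => inA (run p.2)) (Y := fun p => Mi (T p.2) m i p.2)
      ?_ ?_ (by fun_prop)
    · exact c_inA hr (by fun_prop)
    · exact c_Mi (T := fun p : (ℕ × ℕ) × ℕ => (run p.1.2).1) (m := fun _ => m)
        (i := fun _ => i) (s := fun p => p.1.2) (w := fun p => p.2)
        (by fun_prop) (by fun_prop) (by fun_prop) (by fun_prop) (by fun_prop)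
  · intro x
    show jn (inA (run 0)) (Mi (T 0) m i 0) x = false
    unfold jn
    have e1 : inA (run 0) (x / 2) = false := rfl
    have e2 : Mi (T 0) m i 0 (x / 2) = false := by
      obtain ⟨τ, hτ1, hτ2, hτ3⟩ := hm (x / 2)
      rw [Mi_eq]
      have : Ap m (x / 2) 0 = false := by
        unfold Ap tau
        have : lst (fun t => !(Code.evaln 0 (Denumerable.ofNat Code m)
            (Nat.pair (x / 2) t)).isSome) (0 + 1) = 0 := by
          refine lst_eq_of (by omega) ?_ (fun k hk => by omega)
          simp [Code.evaln]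
        rw [this]; simp
      rw [this]; simp
    rw [e1, e2]; simp
  · intro x
    obtain ⟨t1, ht1⟩ := A_eventually (x / 2)
    obtain ⟨t2, ht2⟩ := hlim (x / 2)
    refine ⟨max t1 t2, fun s hs => ?_⟩
    show jn (inA (run s)) (Mi (T s) m i s) x = jn A (MI m M i) x
    unfold jn
    rw [ht1 s (by omega), Mi_eq, ht2 s (by omega)]
    rfl
  · intro x
    by_cases hx : x % 2 = 0
    · have : {s | jn (inA (run s)) (Mi (T s) m i s) x ≠
          jn (inA (run (s + 1))) (Mi (T (s + 1)) m i (s + 1)) x} =
          {s | inA (run s) (x / 2) ≠ inA (run (s + 1)) (x / 2)} := by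
        ext s
        simp only [Set.mem_ofPred_eq]
        unfold jn
        rw [hx]; simp
      show ({s | jn (inA (run s)) (Mi (T s) m i s) x ≠
          jn (inA (run (s + 1))) (Mi (T (s + 1)) m i (s + 1)) x}).encard ≤ n
      rw [this]
      exact (A_apx.chg (x / 2)).trans (by exact_mod_cast hn)
    · obtain ⟨τ, hτ1, hτ2, hτ3⟩ := hm (x / 2)
      show ({s | jn (inA (run s)) (Mi (T s) m i s) x ≠
          jn (inA (run (s + 1))) (Mi (T (s + 1)) m i (s + 1)) x}).encard ≤ n
      have hsub : {s | jn (inA (run s)) (Mi (T s) m i s) x ≠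
          jn (inA (run (s + 1))) (Mi (T (s + 1)) m i (s + 1)) x} ⊆
          {s | g1 (x / 2) (τ s) ≠ g1 (x / 2) (τ (s + 1))} := by
        intro s hs
        have hs' : jn (inA (run s)) (Mi (T s) m i s) x ≠
          jn (inA (run (s + 1))) (Mi (T (s + 1)) m i (s + 1)) x := hs
        show g1 (x / 2) (τ s) ≠ g1 (x / 2) (τ (s + 1))
        intro heq
        apply hs'
        unfold jn
        rw [decide_eq_false hx, cond_false, cond_false, Mi_eq, Mi_eq, hτ3, hτ3, heq]
      exact (Set.encard_le_encard hsub).trans ((changes_comp (g1 (x / 2)) hτ1).trans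
        ((hg1.chg (x / 2)).trans (by exact_mod_cast hk)))

end Pool.Agent.H587R2.NCE
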