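import Pool.Agent.H587R2.NCE.Constr

/-!
Structure of the run.
-/

namespace Pool.Agent.H587R2.NCE

open Pool.Agent.Helper446 Pool.Agent.Helper446.RE Pool.Agent.Helper446.Oracle
open Encodable Nat.Partrec

def T (s : ℕ) : TT := (run s).1
def F (s : ℕ) : FF := (run s).2.1
def D (s : ℕ) : FF := (run s).2.2
def K (s : ℕ) : ℕ := kk (run s) s

theorem T_succ (s : ℕ) : T (s + 1) = newT (run s) s := rfl

theorem mem_nents {S : St} {s n : ℕ} {z : (ℕ × ℕ) × (ℕ × ℕ)} : z ∈ nents S s n ↔
    ∃ y < n, z = nent S s y := by
  induction n with
  | zero => simp [nents]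
  | succ n ih =>
    simp only [nents, List.mem_cons, ih]
    constructor
    · rintro (h | ⟨y, hy, h⟩)
      · exact ⟨n, by omega, h⟩
      · exact ⟨y, by omega, h⟩
    · rintro ⟨y, hy, h⟩
      rcases Nat.lt_succ_iff_lt_or_eq.1 hy with h1 | rfl
      · exact Or.inr ⟨y, h1, h⟩
      · exact Or.inl h

theorem mem_T_succ {s : ℕ} {z : (ℕ × ℕ) × (ℕ × ℕ)} : z ∈ T (s + 1) ↔
    z ∈ T s ∨ (∃ y ≤ sY s, val (run s) (sJ s) s (sY s) = true ∧ z = nent (run s) s y) := by
  rw [T_succ]
  unfold newT
  cases h : val (run s) (sJ s) s (sY s)
  · simp [T]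
  · simp only [cond_true, List.mem_append, T, true_and, mem_nents, Nat.lt_succ_iff]
    exact or_comm

theorem mem_T {t : ℕ} {z : (ℕ × ℕ) × (ℕ × ℕ)} : z ∈ T t ↔
    ∃ s < t, ∃ y ≤ sY s, val (run s) (sJ s) s (sY s) = true ∧ z = nent (run s) s y := by
  induction t with
  | zero => simp [T, run]
  | succ t ih =>
    rw [mem_T_succ, ih]
    constructor
    · rintro (⟨s, hs, h⟩ | h)
      · exact ⟨s, by omega, h⟩
      · exact ⟨t, by omega, h⟩
    · rintro ⟨s, hs, h⟩
      rcases Nat.lt_succ_iff_lt_or_eq.1 hs with h1 | rfl
      · exact Or.inl ⟨s, h1, h⟩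
      · exact Or.inr h

theorem T_mono {s t : ℕ} (h : s ≤ t) {z : (ℕ × ℕ) × (ℕ × ℕ)} (hz : z ∈ T s) : z ∈ T t := by
  rw [mem_T] at *
  obtain ⟨r, hr, h1⟩ := hz
  exact ⟨r, by omega, h1⟩

theorem K_le (s : ℕ) : K s ≤ (F s).length := lst_le _ _

theorem K_min {s i : ℕ} (h : i < K s) :
    inval (T (s + 1)) (F s) i = false ∧ wants (run s) s i = false := by
  have := lst_min (q := fun k => inval (newT (run s) s) (run s).2.1 k || wants (run s) s k) h
  exact Bool.or_eq_false_iff.1 this

theorem K_lt {s : ℕ} (h : K s < (F s).length) :
    inval (T (s + 1)) (F s) (K s) = true ∨ wants (run s) s (K s) = true := by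
  have := lst_of_lt (q := fun k => inval (newT (run s) s) (run s).2.1 k || wants (run s) s k)
    (n := (run s).2.1.length) h
  rw [Bool.or_eq_true] at this
  exact this

theorem stepA {s : ℕ} (h : K s < (F s).length) (hi : inval (T (s + 1)) (F s) (K s) = true) :
    F (s + 1) = (F s).take (K s) ∧ D (s + 1) = D s ++ (F s).drop (K s) := by
  have h1 : (run (s + 1)).2 = nF (run s) s := rfl
  have h2 : nF (run s) s = ((run s).2.1.take (kk (run s) s),
      (run s).2.2 ++ (run s).2.1.drop (kk (run s) s)) := by
    unfold nF
    have e1 : decide (kk (run s) s < (run s).2.1.length) = true := decide_eq_true h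
    have e2 : inval (newT (run s) s) (run s).2.1 (kk (run s) s) = true := hi
    rw [e1, e2]; rfl
  unfold F D
  rw [h1, h2]
  exact ⟨rfl, rfl⟩

theorem stepB {s : ℕ} (h : K s < (F s).length) (hi : inval (T (s + 1)) (F s) (K s) = false) :
    F (s + 1) = (F s).take (K s) ++ [((fol (F s) (K s)).1, (fol (F s) (K s)).2 + 1)] ∧
      D (s + 1) = D s ++ (F s).drop (K s + 1) := by
  have h1 : (run (s + 1)).2 = nF (run s) s := rfl
  have h2 : nF (run s) s = ((run s).2.1.take (kk (run s) s) ++
      [((fol (run s).2.1 (kk (run s) s)).1, (fol (run s).2.1 (kk (run s) s)).2 + 1)],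
      (run s).2.2 ++ (run s).2.1.drop (kk (run s) s + 1)) := by
    unfold nF
    have e1 : decide (kk (run s) s < (run s).2.1.length) = true := decide_eq_true h
    have e2 : inval (newT (run s) s) (run s).2.1 (kk (run s) s) = false := hi
    rw [e1, e2]; rfl
  unfold F D
  rw [h1, h2]
  exact ⟨rfl, rfl⟩

theorem stepC {s : ℕ} (h : K s = (F s).length) :
    F (s + 1) = F s ++ [(s, 0)] ∧ D (s + 1) = D s := by
  have h1 : (run (s + 1)).2 = nF (run s) s := rfl
  have h2 : nF (run s) s = ((run s).2.1 ++ [(s, 0)], (run s).2.2) := by
    unfold nF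
    have e1 : decide (kk (run s) s < (run s).2.1.length) = false := by
      apply decide_eq_false
      have : kk (run s) s = (run s).2.1.length := h
      omega
    rw [e1]; rfl
  unfold F D
  rw [h1, h2]
  exact ⟨rfl, rfl⟩

theorem fol_eq {F : FF} {k : ℕ} (h : k < F.length) : fol F k = F[k] := by
  unfold fol
  rw [List.getElem?_eq_getElem h]; rfl

theorem fol_mem {F : FF} {k : ℕ} (h : k < F.length) : fol F k ∈ F := by
  rw [fol_eq h]; exact List.getElem_mem h

theorem fol_take {F : FF} {k n : ℕ} (h : k < n) : fol (F.take n) k = fol F k := by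
  unfold fol
  rw [List.getElem?_take_of_lt h]

theorem fol_append_left {F G : FF} {k : ℕ} (h : k < F.length) : fol (F ++ G) k = fol F k := by
  unfold fol
  rw [List.getElem?_append_left h]

theorem fol_append_len {F : FF} {x : ℕ × ℕ} : fol (F ++ [x]) F.length = x := by
  unfold fol
  simp

theorem take_append_fol_drop {F : FF} {k : ℕ} (h : k < F.length) :
    F = F.take k ++ (fol F k :: F.drop (k + 1)) := by
  rw [fol_eq h]
  simp

/-- Presence with a given status. -/
def has (s x k : ℕ) : Prop := (x, k) ∈ F s ∨ (x, k) ∈ D s

theorem wants_status {s k : ℕ} (h : wants (run s) s k = true) :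
    ((fol (F s) k).2 = 0 ∧ wIn k (fol (F s) k).1 s (run s) = true) ∨
      ((fol (F s) k).2 = 1 ∧ wOut k (fol (F s) k).1 s = true) := by
  unfold wants at h
  simpa [F] using h

theorem inv (s : ℕ) : (∀ x k, has s x k → x < s ∧ k ≤ 2) ∧
    ((F s ++ D s).map Prod.fst).Nodup := by
  induction s with
  | zero =>
    refine ⟨fun x k h => ?_, ?_⟩
    · rcases h with h | h <;> simp [F, D, run] at h
    · simp [F, D, run]
  | succ s ih =>
    obtain ⟨ih1, ih2⟩ := ih
    rcases (K_le s).lt_or_eq with hlt | heq
    · cases hi : inval (T (s + 1)) (F s) (K s)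
      · obtain ⟨hF, hD⟩ := stepB hlt hi
        have hw : wants (run s) s (K s) = true := by
          rcases K_lt hlt with h | h
          · rw [hi] at h; cases h
          · exact h
        have hsplit := take_append_fol_drop hlt
        have hst : (fol (F s) (K s)).2 ≤ 1 := by
          rcases wants_status hw with h | h <;> omega
        have hmem : ∀ y, y ∈ F s ↔ y ∈ (F s).take (K s) ∨ y = fol (F s) (K s) ∨
            y ∈ (F s).drop (K s + 1) := by
          intro y
          conv_lhs => rw [hsplit]
          simp
        constructor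
        · intro x k h
          unfold has at h
          rw [hF, hD] at h
          simp only [List.mem_append, List.mem_singleton] at h
          rcases h with (h | h) | (h | h)
          · have := ih1 x k (Or.inl ((hmem _).2 (Or.inl h)))
            exact ⟨by omega, this.2⟩
          · rw [Prod.mk.injEq] at h
            have := ih1 _ _ (Or.inl (fol_mem hlt) : has s (fol (F s) (K s)).1
              (fol (F s) (K s)).2)
            exact ⟨by omega, by omega⟩
          · have := ih1 x k (Or.inr h)
            exact ⟨by omega, this.2⟩
          · have := ih1 x k (Or.inl ((hmem _).2 (Or.inr (Or.inr h))))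
            exact ⟨by omega, this.2⟩
        · rw [hF, hD]
          have hp : (F s ++ D s).map Prod.fst =
              ((F s).take (K s)).map Prod.fst ++
                ((fol (F s) (K s)).1 :: (((F s).drop (K s + 1)).map Prod.fst ++
                  (D s).map Prod.fst)) := by
            conv_lhs => rw [hsplit]
            simp only [List.map_append, List.map_cons, List.append_assoc, List.cons_append]
          rw [hp] at ih2
          refine (List.Perm.nodup_iff ?_).1 ih2
          simp only [List.map_append, List.append_assoc, List.map_cons,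
            List.map_nil, List.cons_append, List.nil_append]
          refine List.Perm.append_left _ (List.Perm.cons _ ?_)
          exact List.perm_append_comm
      · obtain ⟨hF, hD⟩ := stepA hlt hi
        have hmem : ∀ y, y ∈ F s ↔ y ∈ (F s).take (K s) ∨ y ∈ (F s).drop (K s) := by
          intro y
          conv_lhs => rw [← List.take_append_drop (K s) (F s)]
          exact List.mem_append
        constructor
        · intro x k h
          unfold has at h
          rw [hF, hD] at h
          simp only [List.mem_append] at h
          rcases h with h | (h | h)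
          · have := ih1 x k (Or.inl ((hmem _).2 (Or.inl h)))
            exact ⟨by omega, this.2⟩
          · have := ih1 x k (Or.inr h)
            exact ⟨by omega, this.2⟩
          · have := ih1 x k (Or.inl ((hmem _).2 (Or.inr h)))
            exact ⟨by omega, this.2⟩
        · rw [hF, hD]
          refine (List.Perm.nodup_iff ?_).1 ih2
          refine List.Perm.map _ ?_
          conv_lhs => rw [← List.take_append_drop (K s) (F s)]
          rw [List.append_assoc]
          exact List.Perm.append_left _ List.perm_append_comm
    · obtain ⟨hF, hD⟩ := stepC heq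
      constructor
      · intro x k h
        unfold has at h
        rw [hF, hD] at h
        simp only [List.mem_append, List.mem_singleton] at h
        rcases h with (h | h) | h
        · have := ih1 x k (Or.inl h)
          exact ⟨by omega, this.2⟩
        · rw [Prod.mk.injEq] at h
          exact ⟨by omega, by omega⟩
        · have := ih1 x k (Or.inr h)
          exact ⟨by omega, this.2⟩
      · rw [hF, hD]
        have hns : s ∉ (F s ++ D s).map Prod.fst := by
          intro hc
          obtain ⟨⟨a, b⟩, hy, rfl⟩ := List.mem_map.1 hc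
          have := (ih1 a b (by simpa [has] using List.mem_append.1 hy)).1
          simp at this
        have h2 : (s :: (F s ++ D s).map Prod.fst).Nodup := List.nodup_cons.2 ⟨hns, ih2⟩
        refine (List.Perm.nodup_iff ?_).1 h2
        simp only [List.map_append, List.map_cons, List.append_assoc,
          List.cons_append, List.nil_append]
        exact (List.perm_middle).symm

theorem has_lt {s x k : ℕ} (h : has s x k) : x < s := ((inv s).1 x k h).1
theorem has_le {s x k : ℕ} (h : has s x k) : k ≤ 2 := ((inv s).1 x k h).2

theorem has_unique {s x k k' : ℕ} (h : has s x k) (h' : has s x k') : k = k' := by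
  have hn := (inv s).2
  have h1 : (x, k) ∈ F s ++ D s := List.mem_append.2 h
  have h2 : (x, k') ∈ F s ++ D s := List.mem_append.2 h'
  have := List.inj_on_of_nodup_map hn h1 h2 rfl
  simpa using this

theorem inA_iff {s x : ℕ} : inA (run s) x = true ↔ has s x 1 := by
  unfold inA has F D
  simp

/-- Transition of presence. -/
theorem has_step {s x k : ℕ} (h : has s x k) : has (s + 1) x k ∨
    (has (s + 1) x (k + 1) ∧ K s < (F s).length ∧ inval (T (s + 1)) (F s) (K s) = false ∧
      fol (F s) (K s) = (x, k)) := by
  rcases (K_le s).lt_or_eq with hlt | heq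
  · cases hi : inval (T (s + 1)) (F s) (K s)
    · obtain ⟨hF, hD⟩ := stepB hlt hi
      unfold has at h ⊢
      rw [hF, hD]
      have hsplit := take_append_fol_drop hlt
      rcases h with h | h
      · rw [hsplit] at h
        rcases List.mem_append.1 h with h | h
        · left; left; simp [h]
        · rcases List.mem_cons.1 h with h | h
          · right
            rw [← h]
            refine ⟨?_, hlt, rfl, rfl⟩
            left; simp
          · left; right; simp [h]
      · left; right; simp [h]
    · obtain ⟨hF, hD⟩ := stepA hlt hi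
      left
      unfold has at h ⊢
      rw [hF, hD]
      rcases h with h | h
      · rw [← List.take_append_drop (K s) (F s)] at h
        rcases List.mem_append.1 h with h | h
        · left; exact h
        · right; simp [h]
      · right; simp [h]
  · obtain ⟨hF, hD⟩ := stepC heq
    left
    unfold has at h ⊢
    rw [hF, hD]
    rcases h with h | h
    · left; simp [h]
    · right; exact h

theorem has_step_back {s x k : ℕ} (h : has (s + 1) x k) : has s x k ∨ (x = s ∧ k = 0) ∨
    (K s < (F s).length ∧ inval (T (s + 1)) (F s) (K s) = false ∧ (fol (F s) (K s)).1 = x ∧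
      (fol (F s) (K s)).2 + 1 = k) := by
  rcases (K_le s).lt_or_eq with hlt | heq
  · cases hi : inval (T (s + 1)) (F s) (K s)
    · obtain ⟨hF, hD⟩ := stepB hlt hi
      unfold has at h ⊢
      rw [hF, hD] at h
      simp only [List.mem_append, List.mem_singleton, Prod.mk.injEq] at h
      rcases h with (h | h) | (h | h)
      · left; left; exact List.mem_of_mem_take h
      · right; right; exact ⟨hlt, rfl, h.1.symm, h.2.symm⟩
      · left; right; exact h
      · left; left; exact List.mem_of_mem_drop h
    · obtain ⟨hF, hD⟩ := stepA hlt hi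
      left
      unfold has at h ⊢
      rw [hF, hD] at h
      simp only [List.mem_append] at h
      rcases h with h | (h | h)
      · left; exact List.mem_of_mem_take h
      · right; exact h
      · left; exact List.mem_of_mem_drop h
  · obtain ⟨hF, hD⟩ := stepC heq
    unfold has at h ⊢
    rw [hF, hD] at h
    simp only [List.mem_append, List.mem_singleton, Prod.mk.injEq] at h
    rcases h with (h | h) | h
    · left; left; exact h
    · right; left; exact h
    · left; right; exact h

/-- `A` changes only on the acting follower. -/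
theorem inA_change {s x : ℕ} (h : inA (run (s + 1)) x ≠ inA (run s) x) :
    K s < (F s).length ∧ inval (T (s + 1)) (F s) (K s) = false ∧ (fol (F s) (K s)).1 = x := by
  by_contra hcon
  apply h
  rw [Bool.eq_iff_iff, inA_iff, inA_iff]
  constructor
  · intro h1
    rcases has_step_back h1 with h2 | ⟨_, h2⟩ | ⟨h2, h3, h4, h5⟩
    · exact h2
    · omega
    · exact absurd ⟨h2, h3, h4⟩ hcon
  · intro h1
    rcases has_step h1 with h2 | ⟨_, h2, h3, h4⟩
    · exact h2
    · exact absurd ⟨h2, h3, by rw [h4]⟩ hcon

/-- Status of a number. -/
noncomputable def stt (s x : ℕ) : ℕ := by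
  classical exact if has s x 2 then 2 else if has s x 1 then 1 else 0

theorem stt_le (s x : ℕ) : stt s x ≤ 2 := by
  unfold stt; split_ifs <;> omega

theorem stt_mono (x : ℕ) : Monotone fun s => stt s x := by
  refine monotone_nat_of_le_succ fun s => ?_
  show stt s x ≤ stt (s + 1) x
  by_cases h2 : has s x 2
  · have h3 : has (s + 1) x 2 := by
      rcases has_step h2 with h | ⟨h, _⟩
      · exact h
      · have := has_le h; omega
    unfold stt
    rw [if_pos h2, if_pos h3]
  · by_cases h1 : has s x 1
    · have h3 : has (s + 1) x 1 ∨ has (s + 1) x 2 := by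
        rcases has_step h1 with h | ⟨h, _⟩
        · exact Or.inl h
        · exact Or.inr h
      unfold stt
      rw [if_neg h2, if_pos h1]
      rcases h3 with h3 | h3
      · split_ifs <;> omega
      · rw [if_pos h3]; omega
    · unfold stt
      rw [if_neg h2, if_neg h1]
      omega

theorem inA_stt (s x : ℕ) : inA (run s) x = decide (stt s x = 1) := by
  rw [Bool.eq_iff_iff, inA_iff, decide_eq_true_eq]
  unfold stt
  constructor
  · intro h
    rw [if_neg, if_pos h]
    intro h2
    have := has_unique h h2
    omega
  · intro h
    by_contra hc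
    rw [if_neg hc] at h
    split_ifs at h <;> omega

theorem A_lim (x : ℕ) : ∃ t, ∀ s ≥ t, inA (run s) x = inA (run t) x := by
  have : ∃ t, ∀ s, stt s x ≤ stt t x := by
    by_contra hcon
    push Not at hcon
    obtain ⟨s1, h1⟩ := hcon 0
    obtain ⟨s2, h2⟩ := hcon s1
    obtain ⟨s3, h3⟩ := hcon s2
    have := stt_le s3 x
    omega
  obtain ⟨t, ht⟩ := this
  refine ⟨t, fun s hs => ?_⟩
  have h1 := stt_mono x hs
  have h2 := ht s
  simp only at h1
  rw [inA_stt, inA_stt, show stt s x = stt t x by omega]

/-- The constructed set. -/
noncomputable def A (x : ℕ) : Bool := inA (run (Classical.choose (A_lim x))) x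

theorem A_eventually (x : ℕ) : ∃ t, ∀ s ≥ t, inA (run s) x = A x :=
  ⟨_, Classical.choose_spec (A_lim x)⟩

/-- Simultaneous convergence on an initial segment. -/
theorem A_eventually_seg (n : ℕ) : ∃ t, ∀ s ≥ t, ∀ x < n, inA (run s) x = A x := by
  choose f hf using A_eventually
  refine ⟨(Finset.range n).sup f, fun s hs x hx => hf x s ?_⟩
  exact le_trans (Finset.le_sup (f := f) (Finset.mem_range.2 hx)) hs

end Pool.Agent.H587R2.NCE
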