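import Pool.Agent.H587R2.NCE.Ver1

/-!
Computations are frozen; entries of bounded priority are bounded; positions stabilise.
-/

namespace Pool.Agent.H587R2.NCE

open Pool.Agent.Helper446 Pool.Agent.Helper446.RE Pool.Agent.Helper446.Oracle
open Encodable Nat.Partrec

theorem rge_iff {T : TT} {j w t : ℕ} : rge T j w t = true ↔
    ∃ z ∈ T, z.1.1 = j ∧ w < z.2.1 ∧ z.2.2 < t := by
  unfold rge
  rw [exL_iff]
  simp

theorem nent_stage (S : St) (s y : ℕ) : (nent S s y).2.2 = s := rfl
theorem nent_req (S : St) (s y : ℕ) : (nent S s y).1.1 = sJ s := rfl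
theorem nent_prio (S : St) (s y : ℕ) : (nent S s y).1.2 = sJ s + y + cc S.1 (sJ s) := rfl
theorem nent_use (S : St) (s y : ℕ) : (nent S s y).2.1 = max (uv S (sJ s) s y) y := rfl

theorem sJ_le (s : ℕ) : sJ s ≤ s := by
  unfold sJ
  exact (Nat.unpair_left_le _).trans (Nat.unpair_left_le _)
theorem sY_le (s : ℕ) : sY s ≤ s := by
  unfold sY
  exact (Nat.unpair_right_le _).trans (Nat.unpair_left_le _)

theorem rge_T {t t' j w : ℕ} (h : t ≤ t') : rge (T t') j w t = rge (T t) j w t := by
  rw [Bool.eq_iff_iff, rge_iff, rge_iff]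
  constructor
  · rintro ⟨z, hz, h1, h2, h3⟩
    obtain ⟨s, hs, y, hy, h4, h5⟩ := mem_T.1 hz
    refine ⟨z, mem_T.2 ⟨s, ?_, y, hy, h4, h5⟩, h1, h2, h3⟩
    rw [h5, nent_stage] at h3
    exact h3
  · rintro ⟨z, hz, h1⟩
    exact ⟨z, T_mono h hz, h1⟩

theorem side_T {t t' m w : ℕ} (h : t ≤ t') : side (T t') m w t = side (T t) m w t := by
  have : sj (T t') m w t = sj (T t) m w t := by
    unfold sj
    congr 1
    funext j
    rw [rge_T h]
  unfold side
  rw [this]

/-- Entered by stage `s`. -/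
def ent (m w s : ℕ) : Bool := exB (fun t => Ap m w t) (s + 1)

theorem ent_iff {m w s : ℕ} : ent m w s = true ↔ ∃ t ≤ s, Ap m w t = true := by
  unfold ent
  rw [exB_iff]
  constructor
  · rintro ⟨t, ht, h⟩; exact ⟨t, by omega, h⟩
  · rintro ⟨t, ht, h⟩; exact ⟨t, by omega, h⟩

theorem ent_mono {m w s s' : ℕ} (h : s ≤ s') (he : ent m w s = true) : ent m w s' = true := by
  rw [ent_iff] at *
  obtain ⟨t, ht, h1⟩ := he
  exact ⟨t, by omega, h1⟩

theorem ent_of_Ap {m w s : ℕ} (h : Ap m w s = true) : ent m w s = true :=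
  ent_iff.2 ⟨s, le_rfl, h⟩

theorem fe_spec {m w s : ℕ} (h : ent m w s = true) :
    fe m w s ≤ s ∧ Ap m w (fe m w s) = true ∧ ∀ t < fe m w s, Ap m w t = false := by
  obtain ⟨t, ht, h1⟩ := ent_iff.1 h
  obtain ⟨h2, h3, h4⟩ := lst_lt_of (q := fun t => Ap m w t) (n := s + 1) (i := t) (by omega) h1
  exact ⟨by show lst _ _ ≤ _; omega, h4, fun t ht => lst_min (q := fun t => Ap m w t) ht⟩

theorem fe_eq_of {m w s t : ℕ} (hts : t ≤ s) (h : Ap m w t = true)
    (hm : ∀ r < t, Ap m w r = false) : fe m w s = t :=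
  lst_eq_of (q := fun t => Ap m w t) (by omega) h hm

theorem fe_mono {m w s s' : ℕ} (h : s ≤ s') (he : ent m w s = true) :
    fe m w s' = fe m w s := by
  obtain ⟨h1, h2, h3⟩ := fe_spec he
  exact fe_eq_of (by omega) h2 h3

theorem fe_gt {m w s s' : ℕ} (he : ent m w s = false) (he' : ent m w s' = true) :
    s < fe m w s' := by
  by_contra hcon
  obtain ⟨h1, h2, h3⟩ := fe_spec he'
  have : ent m w s = true := ent_iff.2 ⟨_, by omega, h2⟩
  rw [he] at this; cases this

theorem rel_iff {s j w : ℕ} : rel (run s) j s w = true ↔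
    ent (jm j) w s = true ∧ side (T s) (jm j) w (fe (jm j) w s) = ji j := by
  unfold rel
  rw [Bool.and_eq_true, decide_eq_true_eq]
  rfl

/-- What validity gives. -/
theorem val1_spec {j s y : ℕ} (h : val1 (run s) j s y = true) :
    cv (jf j) (orc (run s) j s) s y (Ap (jm j) y s) = true ∧
    ul (run s) j s y ≤ uv (run s) j s y ∧ uv (run s) j s y ≤ s ∧
    (∀ w < ul (run s) j s y, rel (run s) j s w = true →
      cv (jt j) (inA (run s)) (uv (run s) j s y) w (Ap (jm j) w s) = true) ∧
    (∀ v < uv (run s) j s y, ¬ (ul (run s) j s y ≤ v ∧ ∀ w < ul (run s) j s y,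
      rel (run s) j s w = true → dn (jt j) (inA (run s)) v w = true)) := by
  unfold val1 at h
  rw [Bool.and_eq_true, Bool.and_eq_true, decide_eq_true_eq] at h
  obtain ⟨h1, h2, h3⟩ := h
  rw [allB_iff] at h3
  have h4 : uv (run s) j s y < s + 1 := by omega
  have h5 := lst_of_lt (q := fun v => decide (ul (run s) j s y ≤ v) &&
    allB (fun w => !(rel (run s) j s w) || dn (jt j) (inA (run s)) v w) (ul (run s) j s y)) h4
  rw [Bool.and_eq_true, decide_eq_true_eq] at h5
  refine ⟨h1, h5.1, h2, ?_, ?_⟩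
  · intro w hw hr
    have := h3 w hw
    rw [hr] at this
    simpa using this
  · rintro v hv ⟨h6, h7⟩
    have h8 := lst_min (q := fun v => decide (ul (run s) j s y ≤ v) &&
      allB (fun w => !(rel (run s) j s w) || dn (jt j) (inA (run s)) v w)
        (ul (run s) j s y)) hv
    rw [Bool.and_eq_false_iff] at h8
    rcases h8 with h8 | h8
    · rw [decide_eq_false_iff_not] at h8
      exact h8 h6
    · have : allB (fun w => !(rel (run s) j s w) || dn (jt j) (inA (run s)) v w)
        (ul (run s) j s y) = true := by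
        rw [allB_iff]
        intro w hw
        cases hr : rel (run s) j s w
        · rfl
        · rw [h7 w hw hr]; rfl
      rw [h8] at this; cases this

/-- Frozen computations. -/
theorem frozen {j y t1 t2 : ℕ} (h12 : t1 ≤ t2) (v1 : val1 (run t1) j t1 y = true)
    (v2 : val1 (run t2) j t2 y = true)
    (hA : ∀ x, x < uv (run t1) j t1 y → x < uv (run t2) j t2 y →
      inA (run t1) x = inA (run t2) x)
    (hnew : ∀ w < ul (run t1) j t1 y, ent (jm j) w t2 = true → ent (jm j) w t1 = false →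
      side (T t2) (jm j) w (fe (jm j) w t2) ≠ ji j) :
    ul (run t1) j t1 y = ul (run t2) j t2 y ∧ uv (run t1) j t1 y = uv (run t2) j t2 y ∧
      Ap (jm j) y t1 = Ap (jm j) y t2 := by
  obtain ⟨a1, a2, a3, a4, a5⟩ := val1_spec v1
  obtain ⟨b1, b2, b3, b4, b5⟩ := val1_spec v2
  -- relevance
  have hside : ∀ w, ent (jm j) w t1 = true →
      side (T t1) (jm j) w (fe (jm j) w t1) = side (T t2) (jm j) w (fe (jm j) w t2) := by
    intro w hw
    rw [fe_mono h12 hw]
    have h1 := (fe_spec hw).1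
    rw [side_T (t' := t2) (h1.trans h12), side_T (t' := t1) h1]
  have hrel : ∀ w < ul (run t1) j t1 y,
      (rel (run t1) j t1 w = true ↔ rel (run t2) j t2 w = true) := by
    intro w hw
    rw [rel_iff, rel_iff]
    constructor
    · rintro ⟨h1, h2⟩
      exact ⟨ent_mono h12 h1, by rw [← hside w h1]; exact h2⟩
    · rintro ⟨h1, h2⟩
      cases he : ent (jm j) w t1
      · exact absurd h2 (hnew w hw h1 he)
      · exact ⟨rfl, by rw [hside w he]; exact h2⟩
  have hMi : ∀ w, w < ul (run t1) j t1 y → w < ul (run t2) j t2 y →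
      Mi (run t1).1 (jm j) (ji j) t1 w = Mi (run t2).1 (jm j) (ji j) t2 w := by
    intro w hw1 hw2
    cases he : ent (jm j) w t1
    · have h1 : Ap (jm j) w t1 = false := by
        cases hc : Ap (jm j) w t1
        · rfl
        · rw [ent_of_Ap hc] at he; cases he
      unfold Mi
      rw [h1, Bool.false_and]
      cases hc : Ap (jm j) w t2
      · rfl
      · have := hnew w hw1 (ent_of_Ap hc) he
        rw [Bool.true_and]
        exact (decide_eq_false this).symm
    · have h1 := hside w he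
      unfold Mi
      by_cases hi : side (T t1) (jm j) w (fe (jm j) w t1) = ji j
      · have hr1 : rel (run t1) j t1 w = true := rel_iff.2 ⟨he, hi⟩
        have hr2 := (hrel w hw1).1 hr1
        have h2 := a4 w hw1 hr1
        have h3 := b4 w hw2 hr2
        have h4 := cv_unique hA h2 h3
        rw [h4]
        congr 1
        show decide (side (T t1) (jm j) w (fe (jm j) w t1) = ji j) =
          decide (side (T t2) (jm j) w (fe (jm j) w t2) = ji j)
        rw [h1]
      · have e1 : decide (side (run t1).1 (jm j) w (fe (jm j) w t1) = ji j) = false :=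
          decide_eq_false hi
        have e2 : decide (side (run t2).1 (jm j) w (fe (jm j) w t2) = ji j) = false := by
          apply decide_eq_false
          show ¬ (side (T t2) (jm j) w (fe (jm j) w t2) = ji j)
          rw [← h1]; exact hi
        rw [e1, e2, Bool.and_false, Bool.and_false]
  have horc : ∀ x, x < ul (run t1) j t1 y → x < ul (run t2) j t2 y →
      orc (run t1) j t1 x = orc (run t2) j t2 x := by
    intro x hx1 hx2
    have hx3 : x / 2 ≤ x := Nat.div_le_self _ _
    unfold orc jn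
    rw [hMi (x / 2) (by omega) (by omega), hA (x / 2) (by omega) (by omega)]
  have hl : ul (run t1) j t1 y = ul (run t2) j t2 y :=
    lu_unique (dn_of_cv a1) (dn_of_cv b1) horc
  have hval : Ap (jm j) y t1 = Ap (jm j) y t2 := by
    have c1 := cv_use a1
    have c2 := cv_use b1
    exact cv_unique (X := orc (run t1) j t1) (Y := orc (run t2) j t2)
      (n := ul (run t1) j t1 y) (m := ul (run t2) j t2 y) horc c1 c2
  refine ⟨hl, ?_, hval⟩
  rcases lt_trichotomy (uv (run t1) j t1 y) (uv (run t2) j t2 y) with h | h | h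
  · exfalso
    apply b5 _ h
    refine ⟨by omega, fun w hw hr => ?_⟩
    have h1 := a4 w (by omega) ((hrel w (by omega)).2 hr)
    rw [← dn_congr (X := inA (run t1)) fun i hi => hA i hi (by omega)]
    exact dn_of_cv h1
  · exact h
  · exfalso
    apply a5 _ h
    refine ⟨by omega, fun w hw hr => ?_⟩
    have h1 := b4 w (by omega) ((hrel w (by omega)).1 hr)
    rw [dn_congr (Y := inA (run t2)) fun i hi => hA i (by omega) hi]
    exact dn_of_cv h1

theorem val_val1 {S : St} {j s y : ℕ} (h : val S j s y = true) {y' : ℕ} (hy : y' ≤ y) :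
    val1 S j s y' = true := by
  unfold val at h
  rw [allB_iff] at h
  exact h y' (by omega)

theorem le_cc {t j : ℕ} {z : (ℕ × ℕ) × (ℕ × ℕ)} (hz : z ∈ T t) (h1 : z.1.1 < j)
    (h2 : jm z.1.1 = jm j) : z.2.1 ≤ cc (T t) j := by
  have := le_supL (q := fun z : (ℕ × ℕ) × (ℕ × ℕ) =>
    bif decide (z.1.1 < j) && decide (jm z.1.1 = jm j) then z.2.1 else 0) hz
  simp only [h1, h2, decide_true, Bool.and_self, cond_true] at this
  exact this

theorem cc_mono {t t' j : ℕ} (h : t ≤ t') : cc (T t) j ≤ cc (T t') j := by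
  unfold cc
  rw [supL_le]
  intro z hz
  exact le_supL (q := fun z : (ℕ × ℕ) × (ℕ × ℕ) =>
    bif decide (z.1.1 < j) && decide (jm z.1.1 = jm j) then z.2.1 else 0) (T_mono h hz)

/-- New elements below a recorded use go to the other side. -/
theorem new_side {t1 t2 w c y : ℕ} (h12 : t1 ≤ t2)
    (hv : val (run t1) (sJ t1) t1 (sY t1) = true) (hy : y ≤ sY t1)
    (hw : w < ul (run t1) (sJ t1) t1 y) (he2 : ent (jm (sJ t1)) w t2 = true)
    (he1 : ent (jm (sJ t1)) w t1 = false) (hc : cc (T t2) (sJ t1) ≤ c)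
    (hno : ∀ w < c, ent (jm (sJ t1)) w t2 = true → ent (jm (sJ t1)) w t1 = true) :
    side (T t2) (jm (sJ t1)) w (fe (jm (sJ t1)) w t2) ≠ ji (sJ t1) := by
  have hgt := fe_gt he1 he2
  have hfe := (fe_spec he2).1
  have hsp := val1_spec (val_val1 hv hy)
  have hz : nent (run t1) t1 y ∈ T t2 := mem_T.2 ⟨t1, by omega, y, hy, hv, rfl⟩
  have hr : rge (T t2) (sJ t1) w (fe (jm (sJ t1)) w t2) = true := by
    refine rge_iff.2 ⟨_, hz, rfl, ?_, hgt⟩
    rw [nent_use]
    have := hsp.2.1
    omega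
  have hq : (decide (jm (sJ t1) = jm (sJ t1)) &&
      rge (T t2) (sJ t1) w (fe (jm (sJ t1)) w t2)) = true := by
    rw [hr]; simp
  obtain ⟨h1, h2, h3⟩ := lst_lt_of (q := fun j => decide (jm j = jm (sJ t1)) &&
    rge (T t2) j w (fe (jm (sJ t1)) w t2)) (n := fe (jm (sJ t1)) w t2) (i := sJ t1)
    (lt_of_le_of_lt (sJ_le t1) hgt) hq
  have heq : sj (T t2) (jm (sJ t1)) w (fe (jm (sJ t1)) w t2) = sJ t1 := by
    rcases h1.lt_or_eq with h4 | h4
    · exfalso
      rw [Bool.and_eq_true, decide_eq_true_eq] at h3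
      obtain ⟨h5, h6⟩ := h3
      obtain ⟨z, hz, h7, h8, h9⟩ := rge_iff.1 h6
      have h10 := le_cc (j := sJ t1) hz (by rw [h7]; exact h4) (by rw [h7]; exact h5)
      have := hno w (by omega) he2
      rw [he1] at this; cases this
    · exact h4
  unfold side
  rw [heq]
  have : decide (sJ t1 < fe (jm (sJ t1)) w t2) = true :=
    decide_eq_true (lt_of_le_of_lt (sJ_le t1) hgt)
  rw [this, cond_true]
  cases ji (sJ t1) <;> simp

/-- Actions of low priority do not change `A` below a recorded use. -/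
theorem preserve {z : (ℕ × ℕ) × (ℕ × ℕ)} {t x : ℕ} (hz : z ∈ T (t + 1)) (hK : z.1.2 ≤ K t)
    (hx : x < z.2.1) : inA (run (t + 1)) x = inA (run t) x := by
  by_contra hne
  obtain ⟨h1, h2, h3⟩ := inA_change hne
  have : inval (T (t + 1)) (F t) (K t) = true := by
    unfold inval
    rw [exL_iff]
    refine ⟨z, hz, ?_⟩
    rw [Bool.and_eq_true, decide_eq_true_eq, decide_eq_true_eq, h3]
    exact ⟨hK, hx⟩
  rw [h2] at this; cases this

theorem preserve' {z : (ℕ × ℕ) × (ℕ × ℕ)} {t0 n x : ℕ} (hz : z ∈ T (t0 + 1)) (hn : z.1.2 ≤ n)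
    (hK : ∀ t ≥ t0, n ≤ K t) (hx : x < z.2.1) {t : ℕ} (ht : t0 ≤ t) :
    inA (run t) x = inA (run t0) x := by
  induction t, ht using Nat.le_induction with
  | base => rfl
  | succ t ht ih =>
    rw [preserve (T_mono (by omega) hz) (hn.trans (hK t ht)) hx, ih]

/-- Eventually no new small element enters. -/
theorem no_new (m c : ℕ) : ∃ s0, ∀ t, ∀ w < c, ent m w t = true → ent m w s0 = true := by
  have h : ∀ w, ∃ s, ∀ t, ent m w t = true → ent m w s = true := by
    intro w
    by_cases hex : ∃ t, ent m w t = true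
    · obtain ⟨t, ht⟩ := hex
      exact ⟨t, fun _ _ => ht⟩
    · exact ⟨0, fun t ht => absurd ⟨t, ht⟩ hex⟩
  choose f hf using h
  refine ⟨(Finset.range c).sup f, fun t w hw ht => ?_⟩
  exact ent_mono (Finset.le_sup (f := f) (Finset.mem_range.2 hw)) (hf w t ht)

theorem use_le {s y : ℕ} (hv : val (run s) (sJ s) s (sY s) = true) (hy : y ≤ sY s) :
    max (uv (run s) (sJ s) s y) y ≤ s :=
  max_le (val1_spec (val_val1 hv hy)).2.2.1 (hy.trans (sY_le s))

/-- Uses recorded for a fixed requirement, argument and counter are eventually constant. -/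
theorem same_use {n s0 j c t1 t2 y : ℕ} (hK : ∀ t ≥ s0, n ≤ K t)
    (hno : ∀ t, ∀ w < c, ent (jm j) w t = true → ent (jm j) w s0 = true)
    (h01 : s0 ≤ t1) (h12 : t1 ≤ t2) (hv1 : val (run t1) (sJ t1) t1 (sY t1) = true)
    (hv2 : val (run t2) (sJ t2) t2 (sY t2) = true) (hj1 : sJ t1 = j) (hj2 : sJ t2 = j)
    (hy1 : y ≤ sY t1) (hy2 : y ≤ sY t2) (hc : cc (T t2) j ≤ c)
    (hp : j + y + cc (T t1) j ≤ n) :
    uv (run t1) j t1 y = uv (run t2) j t2 y ∧ Ap (jm j) y t1 = Ap (jm j) y t2 := by
  subst hj1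
  have w1 := val_val1 hv1 hy1
  have w2 : val1 (run t2) (sJ t1) t2 y = true := by
    rw [← hj2]; exact val_val1 hv2 hy2
  have hz : nent (run t1) t1 y ∈ T (t1 + 1) := mem_T.2 ⟨t1, by omega, y, hy1, hv1, rfl⟩
  refine (frozen h12 w1 w2 ?_ ?_).2
  · intro x hx _
    symm
    refine preserve' hz hp (fun t ht => hK t (by omega)) ?_ h12
    rw [nent_use]
    omega
  · intro w hw he2 he1
    refine new_side h12 hv1 hy1 hw he2 he1 hc ?_
    intro w' hw' he
    exact ent_mono h01 (hno t2 w' hw' he)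

/-- Entries of priority at most `n` are bounded. -/
theorem bound_entries {n s0 : ℕ} (hK : ∀ t ≥ s0, n ≤ K t) :
    ∃ B, ∀ t, ∀ z ∈ T t, z.1.2 ≤ n → z.2.1 ≤ B := by
  have h1 : ∀ j y c, ∃ B, j + y + c ≤ n → ∀ t, val (run t) (sJ t) t (sY t) = true → sJ t = j →
      y ≤ sY t → cc (T t) j = c → max (uv (run t) (sJ t) t y) y ≤ B := by
    intro j y c
    by_cases hn : j + y + c ≤ n
    swap
    · exact ⟨0, fun h => absurd h hn⟩
    obtain ⟨s1, hs1⟩ := no_new (jm j) c
    have hno : ∀ t, ∀ w < c, ent (jm j) w t = true → ent (jm j) w (max s0 s1) = true :=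
      fun t w hw he => ent_mono (le_max_right _ _) (hs1 t w hw he)
    by_cases hex : ∃ t ≥ max s0 s1, val (run t) (sJ t) t (sY t) = true ∧ sJ t = j ∧
      y ≤ sY t ∧ cc (T t) j = c
    · obtain ⟨t1, ht1, a1, a2, a3, a4⟩ := hex
      refine ⟨max t1 (max s0 s1), fun _ t b1 b2 b3 b4 => ?_⟩
      have hu := use_le b1 b3
      rcases lt_or_ge t (max s0 s1) with h | h
      · omega
      · have heq : uv (run t) (sJ t) t y = uv (run t1) (sJ t1) t1 y := by
          rw [a2, b2]
          rcases le_total t t1 with h2 | h2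
          · exact (same_use (s0 := max s0 s1) (c := c) (fun t ht => hK t (by omega)) hno h h2
              b1 a1 b2 a2 b3 a3 (by omega) (by omega)).1
          · exact (same_use (s0 := max s0 s1) (c := c) (fun t ht => hK t (by omega)) hno ht1 h2
              a1 b1 a2 b2 a3 b3 (by omega) (by omega)).1.symm
        have hu1 := use_le a1 a3
        rw [heq]
        omega
    · refine ⟨max s0 s1, fun _ t b1 b2 b3 b4 => ?_⟩
      have hu := use_le b1 b3
      rcases lt_or_ge t (max s0 s1) with h | h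
      · omega
      · exact absurd ⟨t, h, b1, b2, b3, b4⟩ hex
  choose f hf using h1
  refine ⟨(Finset.range (n + 1)).sup fun j => (Finset.range (n + 1)).sup fun y =>
    (Finset.range (n + 1)).sup fun c => f j y c, fun t z hz hp => ?_⟩
  obtain ⟨s, hs, y, hy, hv, rfl⟩ := mem_T.1 hz
  rw [nent_prio] at hp
  rw [nent_use]
  have h2 := hf (sJ s) y (cc (T s) (sJ s)) hp s hv rfl hy rfl
  refine h2.trans ?_
  have hp' : sJ s + y + cc (T s) (sJ s) ≤ n := hp
  have e1 := Finset.le_sup (f := fun c => f (sJ s) y c)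
    (Finset.mem_range.2 (show cc (T s) (sJ s) < n + 1 by omega))
  have e2 := Finset.le_sup (f := fun y => (Finset.range (n + 1)).sup fun c => f (sJ s) y c)
    (Finset.mem_range.2 (show y < n + 1 by omega))
  have e3 := Finset.le_sup (f := fun j => (Finset.range (n + 1)).sup fun y =>
    (Finset.range (n + 1)).sup fun c => f j y c)
    (Finset.mem_range.2 (show sJ s < n + 1 by omega))
  exact e1.trans (e2.trans e3)

end Pool.Agent.H587R2.NCE
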