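import Pool.Agent.H587R2.NCE.Ver2

/-!
Positions stabilise; the degree of `A` is not c.e.
-/

namespace Pool.Agent.H587R2.NCE

open Pool.Agent.Helper446 Pool.Agent.Helper446.RE Pool.Agent.Helper446.Oracle
open Encodable Nat.Partrec

/-- Behaviour of position `i` below the acting index. -/
theorem fol_pres {t i : ℕ} (h : i < K t) :
    i < (F (t + 1)).length ∧ fol (F (t + 1)) i = fol (F t) i := by
  have hK := K_le t
  rcases hK.lt_or_eq with hlt | heq
  · cases hi : inval (T (t + 1)) (F t) (K t)
    · obtain ⟨hF, -⟩ := stepB hlt hi
      rw [hF]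
      constructor
      · rw [List.length_append, List.length_take]
        simp only [List.length_cons, List.length_nil]
        omega
      · rw [fol_append_left (by rw [List.length_take]; omega), fol_take h]
    · obtain ⟨hF, -⟩ := stepA hlt hi
      rw [hF]
      exact ⟨by rw [List.length_take]; omega, fol_take h⟩
  · obtain ⟨hF, -⟩ := stepC heq
    rw [hF]
    constructor
    · rw [List.length_append]; omega
    · rw [fol_append_left (by omega)]

/-- Behaviour at the acting index. -/
theorem fol_act {t : ℕ} (h : K t < (F t).length) (h2 : K t < (F (t + 1)).length) :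
    inval (T (t + 1)) (F t) (K t) = false ∧ (F (t + 1)).length = K t + 1 ∧
      fol (F (t + 1)) (K t) = ((fol (F t) (K t)).1, (fol (F t) (K t)).2 + 1) ∧
      wants (run t) t (K t) = true := by
  cases hi : inval (T (t + 1)) (F t) (K t)
  · obtain ⟨hF, -⟩ := stepB h hi
    refine ⟨rfl, ?_, ?_, ?_⟩
    · rw [hF, List.length_append, List.length_take]
      simp only [List.length_cons, List.length_nil]
      omega
    · rw [hF]
      have hl : (List.take (K t) (F t)).length = K t := by rw [List.length_take]; omega
      conv_lhs => rw [← hl]
      conv_lhs => rw [hl]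
      unfold fol
      rw [List.getElem?_append_right (by omega)]
      rw [hl]
      simp
    · rcases K_lt h with h3 | h3
      · rw [hi] at h3; cases h3
      · exact h3
  · obtain ⟨hF, -⟩ := stepA h hi
    rw [hF, List.length_take] at h2
    omega

/-- Length after a step is at most `K t + 1`. -/
theorem length_succ_le (t : ℕ) : (F (t + 1)).length ≤ K t + 1 := by
  rcases (K_le t).lt_or_eq with hlt | heq
  · cases hi : inval (T (t + 1)) (F t) (K t)
    · obtain ⟨hF, -⟩ := stepB hlt hi
      rw [hF, List.length_append, List.length_take]
      simp only [List.length_cons, List.length_nil]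
      omega
    · obtain ⟨hF, -⟩ := stepA hlt hi
      rw [hF, List.length_take]
      omega
  · obtain ⟨hF, -⟩ := stepC heq
    rw [hF, List.length_append]
    simp only [List.length_cons, List.length_nil]
    omega

theorem fol_has {t i : ℕ} (h : i < (F t).length) : has t (fol (F t) i).1 (fol (F t) i).2 :=
  Or.inl (fol_mem h)

theorem stable_succ {n s0 : ℕ} (hK : ∀ t ≥ s0, n ≤ K t) : ∃ s1, ∀ t ≥ s1, n + 1 ≤ K t := by
  obtain ⟨B, hB⟩ := bound_entries hK
  have h1 : ∃ s2 ≥ s0, ∀ t ≥ s2, n < (F t).length := by
    by_cases hex : ∃ t ≥ max s0 B, (F t).length = n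
    · obtain ⟨t0, ht0, hl⟩ := hex
      have hKt : K t0 = (F t0).length := by
        have := K_le t0
        have := hK t0 (by omega)
        omega
      obtain ⟨hF, -⟩ := stepC hKt
      have hgood : ∀ t ≥ t0 + 1, n < (F t).length ∧ B ≤ (fol (F t) n).1 := by
        intro t ht
        induction t, ht using Nat.le_induction with
        | base =>
          rw [hF]
          refine ⟨by rw [List.length_append]; simp; omega, ?_⟩
          rw [← hl, fol_append_len]
          show B ≤ t0
          omega
        | succ t ht ih =>
          obtain ⟨ih1, ih2⟩ := ih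
          rcases (hK t (by omega)).lt_or_eq with h | h
          · have := fol_pres h
            exact ⟨this.1, by rw [this.2]; exact ih2⟩
          · have hinv : inval (T (t + 1)) (F t) (K t) = false := by
              by_contra hc
              rw [Bool.not_eq_false] at hc
              unfold inval at hc
              rw [exL_iff] at hc
              obtain ⟨z, hz, h2⟩ := hc
              rw [Bool.and_eq_true, decide_eq_true_eq, decide_eq_true_eq, ← h] at h2
              have := hB _ z hz h2.1
              omega
            have hlt : K t < (F t).length := by omega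
            obtain ⟨hF2, -⟩ := stepB hlt hinv
            have hlen : K t < (F (t + 1)).length := by
              rw [hF2, List.length_append, List.length_take]
              simp only [List.length_cons, List.length_nil]
              omega
            obtain ⟨-, h3, h4, -⟩ := fol_act hlt hlen
            rw [h, h4]
            exact ⟨hlen, by rw [← h]; exact ih2⟩
      exact ⟨t0 + 1, by omega, fun t ht => (hgood t ht).1⟩
    · refine ⟨max s0 B, le_max_left _ _, fun t ht => ?_⟩
      have h2 := hK t (by omega)
      have h3 := K_le t
      have h4 : (F t).length ≠ n := fun h => hex ⟨t, ht, h⟩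
      omega
  obtain ⟨s2, hs2, hlen⟩ := h1
  -- the status
  have hstep : ∀ t ≥ s2, (n < K t ∧ (fol (F (t + 1)) n).2 = (fol (F t) n).2) ∨
      (K t = n ∧ (fol (F (t + 1)) n).2 = (fol (F t) n).2 + 1) := by
    intro t ht
    rcases (hK t (by omega)).lt_or_eq with h | h
    · left
      exact ⟨h, by rw [(fol_pres h).2]⟩
    · right
      have h1 := hlen t ht
      have h2 := hlen (t + 1) (by omega)
      obtain ⟨-, -, h4, -⟩ := fol_act (t := t) (by omega) (by omega)
      rw [← h] at h4
      exact ⟨h.symm, by rw [h4]⟩
  have hle : ∀ t ≥ s2, (fol (F t) n).2 ≤ 2 := fun t ht => has_le (fol_has (hlen t ht))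
  have hmono : ∀ t ≥ s2, ∀ t' ≥ t, (fol (F t) n).2 ≤ (fol (F t') n).2 := by
    intro t ht t' ht'
    induction t', ht' using Nat.le_induction with
    | base => exact le_rfl
    | succ t' ht' ih =>
      rcases hstep t' (by omega) with h | h <;> omega
  by_contra hcon
  push Not at hcon
  obtain ⟨t1, h1, k1⟩ := hcon s2
  obtain ⟨t2, h2, k2⟩ := hcon (t1 + 1)
  obtain ⟨t3, h3, k3⟩ := hcon (t2 + 1)
  have e1 := hstep t1 (by omega)
  have e2 := hstep t2 (by omega)
  have e3 := hstep t3 (by omega)
  have m1 := hmono (t1 + 1) (by omega) t2 (by omega)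
  have m2 := hmono (t2 + 1) (by omega) t3 (by omega)
  have l3 := hle (t3 + 1) (by omega)
  omega

theorem stable (n : ℕ) : ∃ s0, ∀ t ≥ s0, n ≤ K t := by
  induction n with
  | zero => exact ⟨0, fun t _ => Nat.zero_le _⟩
  | succ n ih =>
    obtain ⟨s0, h⟩ := ih
    exact stable_succ h

/-- A follower present at a position has been there since its appointment. -/
theorem stay {e s0 : ℕ} (h0 : e < (F s0).length) {t : ℕ} (ht : t ≤ s0)
    (hx : (fol (F s0) e).1 < t) : e < (F t).length ∧ (fol (F t) e).1 = (fol (F s0) e).1 := by
  induction ht using Nat.decreasingInduction with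
  | self => exact ⟨h0, rfl⟩
  | of_succ t ht ih =>
    obtain ⟨ih1, ih2⟩ := ih (by omega)
    have hl := length_succ_le t
    rcases (K_le t).lt_or_eq with hlt | heq
    · rcases (show e ≤ K t by omega).lt_or_eq with h | h
      · have := (fol_pres h).2
        exact ⟨by omega, by rw [← this, ih2]⟩
      · obtain ⟨-, -, h3, -⟩ := fol_act hlt (by omega)
        rw [← h] at h3
        exact ⟨by omega, by rw [h3] at ih2; exact ih2⟩
    · obtain ⟨hF, -⟩ := stepC heq
      rcases lt_or_ge e (F t).length with h | h
      · refine ⟨h, ?_⟩
        rw [hF, fol_append_left h] at ih2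
        exact ih2
      · exfalso
        have : e = (F t).length := by omega
        rw [hF, this, fol_append_len] at ih2
        simp only at ih2
        rw [← this] at ih2
        omega

/-- Actions of indices above `e` after a truncation do not touch small numbers. -/
theorem fresh {e t0 t1 : ℕ} (h0 : (F t0).length ≤ e + 1) (h01 : t0 ≤ t1)
    (hK : ∀ t, t0 ≤ t → t < t1 → e + 1 ≤ K t) :
    (∀ i, e < i → i < (F t1).length → t0 ≤ (fol (F t1) i).1) ∧
      ∀ x < t0, inA (run t1) x = inA (run t0) x := by
  induction t1, h01 using Nat.le_induction with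
  | base => exact ⟨fun i h1 h2 => by omega, fun _ _ => rfl⟩
  | succ t ht ih =>
    obtain ⟨ih1, ih2⟩ := ih fun r h1 h2 => hK r h1 (by omega)
    have hKt := hK t ht (by omega)
    constructor
    · intro i h1 h2
      have hl := length_succ_le t
      rcases (show i ≤ K t by omega).lt_or_eq with h | h
      · rw [(fol_pres h).2]
        exact ih1 i h1 (by have := K_le t; omega)
      · rcases (K_le t).lt_or_eq with hlt | heq
        · obtain ⟨-, -, h3, -⟩ := fol_act hlt (by omega)
          rw [h, h3]
          exact ih1 (K t) (by omega) hlt
        · obtain ⟨hF, -⟩ := stepC heq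
          have : i = (F t).length := by omega
          rw [hF, this, fol_append_len]
          exact ht
    · intro x hx
      rw [← ih2 x hx]
      by_contra hne
      obtain ⟨h1, h2, h3⟩ := inA_change hne
      have := ih1 (K t) (by omega) h1
      omega

theorem wst_seg {a : ℕ} {W : ℕ → Bool} (ha : ∀ x, W x = true ↔ ∃ s, wst ℕ a s x = true)
    (l : ℕ) : ∃ t, ∀ s ≥ t, ∀ x < l, wst ℕ a s x = W x := by
  have h : ∀ x, ∃ t, ∀ s ≥ t, wst ℕ a s x = W x := by
    intro x
    cases hx : W x
    · refine ⟨0, fun s _ => ?_⟩
      by_contra hc
      rw [Bool.not_eq_false] at hc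
      have := (ha x).2 ⟨s, hc⟩
      rw [hx] at this; cases this
    · obtain ⟨t, ht⟩ := (ha x).1 hx
      exact ⟨t, fun s hs => wst_mono hs ht⟩
  choose f hf using h
  exact ⟨(Finset.range l).sup f, fun s hs x hx =>
    hf x s (le_trans (Finset.le_sup (f := f) (Finset.mem_range.2 hx)) hs)⟩

/-- The degree of `A` contains no c.e. set. -/
theorem not_ce {W : ℕ → Bool} (hW : REPred fun x => W x = true)
    (h1 : REIn (st W) fun x => A x = true) (h2 : REIn (st W) fun x => A x = false)
    (h3 : REIn (st A) fun x => W x = true) (h4 : REIn (st A) fun x => W x = false) : False := by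
  obtain ⟨a, ha⟩ := wst_univ hW
  obtain ⟨b, hb1, hb2⟩ := index_total h1 h2
  obtain ⟨c, hc1, hc2⟩ := index_total h3 h4
  obtain ⟨e, rfl, rfl, rfl⟩ : ∃ e : ℕ, a = e.unpair.1 ∧ b = e.unpair.2.unpair.1 ∧
      c = e.unpair.2.unpair.2 := ⟨Nat.pair a (Nat.pair b c), by simp, by simp, by simp⟩
  obtain ⟨s0, hs0⟩ := stable (e + 1)
  have hlen : ∀ t ≥ s0, e < (F t).length := fun t ht => by
    have := hs0 t ht
    have := K_le t
    omega
  have hconst : ∀ t ≥ s0, fol (F t) e = fol (F s0) e := by
    intro t ht
    induction t, ht using Nat.le_induction with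
    | base => rfl
    | succ t ht ih => rw [(fol_pres (hs0 t ht)).2, ih]
  obtain ⟨x, k, hxk⟩ : ∃ x k, fol (F s0) e = (x, k) := ⟨_, _, rfl⟩
  have hhas : ∀ t ≥ s0, has t x k := by
    intro t ht
    have := fol_has (hlen t ht)
    rw [hconst t ht, hxk] at this
    exact this
  have hxs : x < s0 := has_lt (hhas s0 le_rfl)
  have hk : k ≤ 2 := has_le (hhas s0 le_rfl)
  have hnw : ∀ t ≥ s0, wants (run t) t e = false := fun t ht => (K_min (hs0 t ht)).2
  have hAx : A x = decide (k = 1) := by
    obtain ⟨t, ht⟩ := A_eventually x
    rw [← ht (max t s0) (le_max_left _ _), Bool.eq_iff_iff, inA_iff, decide_eq_true_eq]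
    constructor
    · intro h
      exact has_unique (hhas _ (le_max_right _ _)) h
    · intro h
      rw [← h]
      exact hhas _ (le_max_right _ _)
  have hcases : k = 0 ∨ k = 1 ∨ k = 2 := by omega
  rcases hcases with rfl | rfl | rfl
  · -- never entered
    have hAx' : A x = false := by rw [hAx]; rfl
    obtain ⟨l, hl⟩ := hb1 x
    rw [hAx'] at hl
    choose u hu using hc1
    obtain ⟨t1, ht1⟩ := wst_seg ha (l + 1)
    obtain ⟨t2, ht2⟩ := A_eventually_seg ((Finset.range l).sup u)
    obtain ⟨s, hs⟩ : ∃ s, s = max (max t1 t2) (max s0 (max l ((Finset.range l).sup u))) :=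
      ⟨_, rfl⟩
    have hw : wants (run s) s e = true := by
      unfold wants
      have hf : fol (run s).2.1 e = (x, 0) := by
        rw [← hxk]; exact hconst s (by omega)
      rw [hf]
      have : wIn e x s (run s) = true := by
        unfold wIn
        rw [exB_iff]
        refine ⟨l, by omega, ?_⟩
        rw [Bool.and_eq_true]
        constructor
        · exact cv_congr (fun i hi => (ht1 s (by omega) i (by omega)).symm) hl
        · rw [allB_iff]
          intro z hz
          rw [ht1 s (by omega) z (by omega)]
          have huz : u z ≤ (Finset.range l).sup u :=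
            Finset.le_sup (f := u) (Finset.mem_range.2 hz)
          refine cv_mono (n := u z) (by omega) ?_
          exact cv_congr (fun i hi => (ht2 s (by omega) i (by omega)).symm) (hu z)
      simp [this]
    rw [hnw s (by omega)] at hw
    cases hw
  · -- entered, never left
    have hAx' : A x = true := by rw [hAx]; rfl
    obtain ⟨l, hl⟩ := hb1 x
    rw [hAx'] at hl
    obtain ⟨t1, ht1⟩ := wst_seg ha (l + 1)
    obtain ⟨s, hs⟩ : ∃ s, s = max t1 (max s0 l) := ⟨_, rfl⟩
    have hw : wants (run s) s e = true := by
      unfold wants
      have hf : fol (run s).2.1 e = (x, 1) := by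
        rw [← hxk]; exact hconst s (by omega)
      rw [hf]
      have : wOut e x s = true := by
        unfold wOut
        rw [exB_iff]
        exact ⟨l, by omega, cv_congr (fun i hi => (ht1 s (by omega) i (by omega)).symm) hl⟩
      simp [this]
    rw [hnw s (by omega)] at hw
    cases hw
  · -- entered and left
    have hAx' : A x = false := by rw [hAx]; rfl
    have hst : ∀ t, x < t → t ≤ s0 → e < (F t).length ∧ (fol (F t) e).1 = x := by
      intro t h1 h2
      have := stay (hlen s0 le_rfl) h2 (by rw [hxk]; exact h1)
      rw [hxk] at this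
      exact this
    -- the behaviour of the status
    have hKe : ∀ t, x < t → t < s0 → (K t = e ∧ (F (t + 1)).length = e + 1 ∧
        (fol (F (t + 1)) e).2 = (fol (F t) e).2 + 1 ∧ wants (run t) t e = true ∧
        inval (T (t + 1)) (F t) (K t) = false) ∨
        (e + 1 ≤ K t ∧ (fol (F (t + 1)) e).2 = (fol (F t) e).2) := by
      intro t h1 h2
      have a1 := hst t h1 (by omega)
      have a2 := hst (t + 1) (by omega) (by omega)
      have a3 := length_succ_le t
      rcases (show e ≤ K t by omega).lt_or_eq with h | h
      · right; exact ⟨h, by rw [(fol_pres h).2]⟩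
      · left
        obtain ⟨b1, b2, b3, b4⟩ := fol_act (t := t) (by omega) (by omega)
        rw [← h] at b2 b3 b4
        exact ⟨h.symm, b2, by rw [b3], b4, b1⟩
    have hx0 : (fol (F (x + 1)) e).2 = 0 := by
      have a1 := hst (x + 1) (by omega) (by omega)
      have a3 := length_succ_le x
      have a4 := fol_has a1.1
      rw [a1.2] at a4
      rcases has_step_back a4 with h | ⟨_, h⟩ | ⟨h, _, h5, _⟩
      · have := has_lt h; omega
      · exact h
      · have := has_lt (fol_has h)
        omega
    have hfin : (fol (F s0) e).2 = 2 := by rw [hxk]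
    -- existence of stages
    have hexi : ∀ v, v < 2 → ∃ a, x < a ∧ a < s0 ∧ K a = e ∧ (fol (F a) e).2 = v ∧
        (fol (F (a + 1)) e).2 = v + 1 := by
      intro v hv
      by_contra hcon
      push Not at hcon
      have : ∀ t, x + 1 ≤ t → t ≤ s0 → (fol (F t) e).2 ≤ v := by
        intro t ht
        induction t, ht using Nat.le_induction with
        | base => intro _; omega
        | succ t ht ih =>
          intro h2
          have ih' := ih (by omega)
          rcases hKe t (by omega) (by omega) with ⟨c1, c2, c3, c4, c5⟩ | ⟨c1, c2⟩
          · by_contra hgt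
            exact hcon t (by omega) (by omega) c1 (by omega) (by omega)
          · omega
      have := this s0 (by omega) le_rfl
      omega
    have hmono : ∀ t, x < t → ∀ t', t ≤ t' → t' ≤ s0 → (fol (F t) e).2 ≤ (fol (F t') e).2 := by
      intro t ht t' htt'
      induction t', htt' using Nat.le_induction with
      | base => intro _; exact le_rfl
      | succ t' ht' ih =>
        intro h2
        have := ih (by omega)
        rcases hKe t' (by omega) (by omega) with h | h <;> omega
    obtain ⟨a, a1, a2, a3, a4, a5⟩ := hexi 0 (by omega)
    obtain ⟨b, b1, b2, b3, b4, b5⟩ := hexi 1 (by omega)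
    have hab : a < b := by
      by_contra hc
      rcases (show b ≤ a by omega).lt_or_eq with h | h
      · have := hmono (b + 1) (by omega) a (by omega) (by omega)
        omega
      · rw [h] at b4; omega
    have hKab : ∀ t, a + 1 ≤ t → t < b → e + 1 ≤ K t := by
      intro t h1 h2
      rcases hKe t (by omega) (by omega) with h | h
      · have := hmono (t + 1) (by omega) b (by omega) (by omega)
        have := hmono (a + 1) (by omega) t (by omega) (by omega)
        omega
      · exact h.1
    have hKb : ∀ t, b + 1 ≤ t → e + 1 ≤ K t := by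
      intro t h1
      rcases lt_or_ge t s0 with h2 | h2
      · rcases hKe t (by omega) (by omega) with h | h
        · have := hmono (t + 1) (by omega) s0 (by omega) (by omega)
          have := hmono (b + 1) (by omega) t (by omega) (by omega)
          omega
        · exact h.1
      · exact hs0 t h2
    have hsa := hKe a a1 a2
    have hsb := hKe b b1 b2
    have hsa' : (F (a + 1)).length = e + 1 ∧ wants (run a) a e = true ∧
        inval (T (a + 1)) (F a) (K a) = false := by
      rcases hsa with h | h
      · exact ⟨h.2.1, h.2.2.2.1, h.2.2.2.2⟩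
      · omega
    have hsb' : (F (b + 1)).length = e + 1 ∧ wants (run b) b e = true ∧
        inval (T (b + 1)) (F b) (K b) = false := by
      rcases hsb with h | h
      · exact ⟨h.2.1, h.2.2.2.1, h.2.2.2.2⟩
      · omega
    have hfa : fol (F a) e = (x, 0) := Prod.ext (hst a a1 (by omega)).2 a4
    have hfb : fol (F b) e = (x, 1) := Prod.ext (hst b b1 (by omega)).2 b4
    -- `A` agrees with its approximation at stage `a` below `a`
    have hagree : ∀ y < a, inA (run a) y = A y := by
      intro y hy
      by_cases hyx : y = x
      · rw [hyx, hAx']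
        rw [← Bool.not_eq_true, inA_iff]
        intro h
        have hh : has a x 0 := by
          have := fol_has (hst a a1 (by omega)).1
          rw [hfa] at this
          exact this
        have := has_unique h hh
        omega
      · have e1 : inA (run (a + 1)) y = inA (run a) y := by
          by_contra hne
          obtain ⟨_, _, h5⟩ := inA_change hne
          rw [a3, hfa] at h5
          exact hyx h5.symm
        have e2 := (fresh (e := e) (t0 := a + 1) (t1 := b) (by omega) (by omega)
          hKab).2 y (by omega)
        have e3 : inA (run (b + 1)) y = inA (run b) y := by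
          by_contra hne
          obtain ⟨_, _, h5⟩ := inA_change hne
          rw [b3, hfb] at h5
          exact hyx h5.symm
        obtain ⟨t, ht⟩ := A_eventually y
        have e4 := (fresh (e := e) (t0 := b + 1) (t1 := max t (b + 1)) (by omega) (by omega)
          (fun r h1 _ => hKb r h1)).2 y (by omega)
        rw [← ht (max t (b + 1)) (le_max_left _ _), e4, e3, e2, e1]
    -- the computations
    have hwa : wIn e x a (run a) = true := by
      rcases wants_status hsa'.2.1 with h | h
      · rw [hfa] at h; exact h.2
      · rw [hfa] at h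
        have := h.1
        omega
    have hwb : wOut e x b = true := by
      rcases wants_status hsb'.2.1 with h | h
      · rw [hfb] at h
        have := h.1
        omega
      · rw [hfb] at h; exact h.2
    unfold wIn at hwa
    rw [exB_iff] at hwa
    obtain ⟨l, hl, hl2⟩ := hwa
    rw [Bool.and_eq_true, allB_iff] at hl2
    obtain ⟨hl3, hl4⟩ := hl2
    unfold wOut at hwb
    rw [exB_iff] at hwb
    obtain ⟨l', hl', hl5⟩ := hwb
    have hWz : ∀ z < l, W z = wst ℕ e.unpair.1 a z := by
      intro z hz
      exact hc2 z a _ (cv_congr hagree (hl4 z hz))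
    have hWb : ∀ z < l, wst ℕ e.unpair.1 a z = wst ℕ e.unpair.1 b z := by
      intro z hz
      cases hza : wst ℕ e.unpair.1 a z
      · cases hzb : wst ℕ e.unpair.1 b z
        · rfl
        · have := (ha z).2 ⟨b, hzb⟩
          rw [hWz z hz, hza] at this
          cases this
      · exact (wst_mono (by omega) hza).symm
    have := cv_unique_same (cv_congr hWb hl3) hl5
    cases this

end Pool.Agent.H587R2.NCE
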