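import Pool.Agent.H587R2.NCE.Ver3

/-!
The splitting requirements.
-/

namespace Pool.Agent.H587R2.NCE

open Pool.Agent.Helper446 Pool.Agent.Helper446.RE Pool.Agent.Helper446.Oracle
open Encodable Nat.Partrec

/-- The element `w` enters the `m`-th approximation at some stage. -/
def Ent (m w : ℕ) : Prop := ∃ t, Ap m w t = true

open Classical in
/-- The final side of an element. -/
noncomputable def sdf (m w : ℕ) : Bool :=
  if h : Ent m w then side (T (fe m w h.choose)) m w (fe m w h.choose) else false

theorem sdf_eq {m w s t : ℕ} (he : ent m w s = true) (hst : fe m w s ≤ t) :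
    side (T t) m w (fe m w s) = sdf m w := by
  have hE : Ent m w := by
    obtain ⟨r, _, hr⟩ := ent_iff.1 he
    exact ⟨r, hr⟩
  have h1 : ent m w hE.choose = true := ent_iff.2 ⟨_, le_rfl, hE.choose_spec⟩
  have h2 : fe m w hE.choose = fe m w s := by
    rcases le_total hE.choose s with h | h
    · exact (fe_mono h h1).symm
    · exact fe_mono h he
  unfold sdf
  rw [dif_pos hE, h2]
  exact side_T hst

/-- The parts. -/
noncomputable def MI (m : ℕ) (M : ℕ → Bool) (i : Bool) (w : ℕ) : Bool :=
  M w && decide (sdf m w = i)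

theorem Mi_eq {m s w : ℕ} {i : Bool} : Mi (T s) m i s w = (Ap m w s && decide (sdf m w = i)) := by
  unfold Mi
  cases h : Ap m w s
  · simp
  · have he := ent_of_Ap h
    rw [sdf_eq he (fe_spec he).1]

/-- Bounded monotone sequences are eventually constant. -/
theorem eventually_const {f : ℕ → ℕ} (hf : ∀ s t, s ≤ t → f s ≤ f t) {B : ℕ}
    (hB : ∀ s, f s ≤ B) : ∃ s0, ∀ t ≥ s0, f t = f s0 := by
  have h : ∀ k, (∃ s0, ∀ t ≥ s0, f t = f s0) ∨ ∃ s, k ≤ f s := by
    intro k
    induction k with
    | zero => right; exact ⟨0, Nat.zero_le _⟩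
    | succ k ih =>
      rcases ih with h | ⟨s, hs⟩
      · left; exact h
      · by_cases hc : ∀ t ≥ s, f t = f s
        · left; exact ⟨s, hc⟩
        · right
          push Not at hc
          obtain ⟨t, ht, hne⟩ := hc
          have := hf s t ht
          exact ⟨t, by omega⟩
  rcases h (B + 1) with h | ⟨s, hs⟩
  · exact h
  · have := hB s
    omega

/-- Boundedness of the entries of the requirements of a set not reducible to `A`. -/
theorem bounded {m : ℕ} {M : ℕ → Bool} (hlim : ∀ w, ∃ t, ∀ s ≥ t, Ap m w s = M w)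
    (hM : ¬ ((REIn (st A) fun w => M w = true) ∧ REIn (st A) fun w => M w = false)) (j : ℕ) :
    jm j = m → ∃ B, ∀ t, ∀ z ∈ T t, z.1.1 = j → z.2.1 ≤ B := by
  induction j using Nat.strong_induction_on with
  | _ j ih =>
    intro hjm
    subst hjm
    -- the counter is bounded
    have hcb : ∃ C, ∀ t, cc (T t) j ≤ C := by
      have h1 : ∀ j', ∃ B, j' < j → jm j' = jm j → ∀ t, ∀ z ∈ T t, z.1.1 = j' → z.2.1 ≤ B := by
        intro j'
        by_cases h : j' < j ∧ jm j' = jm j
        · obtain ⟨B, hB⟩ := ih j' h.1 h.2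
          exact ⟨B, fun _ _ => hB⟩
        · exact ⟨0, fun h1 h2 => absurd ⟨h1, h2⟩ h⟩
      choose f hf using h1
      refine ⟨(Finset.range j).sup f, fun t => ?_⟩
      unfold cc
      rw [supL_le]
      intro z hz
      by_cases h : z.1.1 < j ∧ jm z.1.1 = jm j
      · have h2 := hf z.1.1 h.1 h.2 t z hz rfl
        have h3 := Finset.le_sup (f := f) (Finset.mem_range.2 h.1)
        simp only [h.1, h.2, decide_true, Bool.and_self, cond_true]
        omega
      · have : (decide (z.1.1 < j) && decide (jm z.1.1 = jm j)) = false := by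
          rw [Bool.and_eq_false_iff, decide_eq_false_iff_not, decide_eq_false_iff_not]
          by_contra hc
          push Not at hc
          exact h hc
        rw [this]
        simp
    obtain ⟨C, hC⟩ := hcb
    obtain ⟨s0, hs0⟩ := eventually_const (f := fun t => cc (T t) j)
      (fun s t h => cc_mono h) hC
    obtain ⟨c, hc⟩ : ∃ c, c = cc (T s0) j := ⟨_, rfl⟩
    have hcc : ∀ t ≥ s0, cc (T t) j = c := fun t ht => by rw [hc]; exact hs0 t ht
    obtain ⟨s1, hs1⟩ := no_new (jm j) c
    by_contra hcon
    push Not at hcon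
    -- infinitely many long agreements
    have hinf : ∀ r Y, ∃ t ≥ r, val (run t) (sJ t) t (sY t) = true ∧ sJ t = j ∧ Y ≤ sY t := by
      intro r Y
      obtain ⟨s2, hs2⟩ := stable (j + Y + c)
      obtain ⟨B1, hB1⟩ := bound_entries hs2
      obtain ⟨t, z, hz, hz1, hz2⟩ := hcon (max B1 (max r s0))
      obtain ⟨t', ht', y, hy, hv, rfl⟩ := mem_T.1 hz
      rw [nent_use] at hz2
      rw [nent_req] at hz1
      have hu := use_le hv hy
      refine ⟨t', by omega, hv, hz1, ?_⟩
      by_contra hlt
      have h2 : (nent (run t') t' y).1.2 ≤ j + Y + c := by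
        rw [nent_prio, hz1]
        have := hcc t' (by omega)
        have : cc (run t').1 j = c := this
        omega
      have h3 := hB1 t _ hz h2
      rw [nent_use] at h3
      omega
    -- the characterisation
    have key : ∀ y b, M y = b ↔ ∃ t ≥ max s0 s1, (val (run t) (sJ t) t (sY t) = true ∧
        sJ t = j ∧ y ≤ sY t ∧ Ap (jm j) y t = b) ∧
        ∀ x < uv (run t) j t y, inA (run t) x = A x := by
      intro y b
      constructor
      · intro hb
        obtain ⟨s2, hs2⟩ := stable (j + y + c)
        obtain ⟨s3, hs3⟩ := hlim y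
        obtain ⟨t, ht, hv, hj, hY⟩ := hinf (max (max s0 s1) (max s2 s3)) y
        refine ⟨t, by omega, ⟨hv, hj, hY, by rw [hs3 t (by omega)]; exact hb⟩, ?_⟩
        intro x hx
        obtain ⟨r, hr⟩ := A_eventually x
        have hz : nent (run t) t y ∈ T (t + 1) := mem_T.2 ⟨t, by omega, y, hY, hv, rfl⟩
        have hp : (nent (run t) t y).1.2 ≤ j + y + c := by
          rw [nent_prio, hj]
          have : cc (run t).1 j = c := hcc t (by omega)
          omega
        have h1 := preserve' (t0 := t) (n := j + y + c) hz hp (fun t' ht' => hs2 t' (by omega))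
          (by rw [nent_use, hj]; exact lt_of_lt_of_le hx (le_max_left _ _))
          (t := max r t) (le_max_right _ _)
        rw [← h1, hr _ (le_max_left _ _)]
      · rintro ⟨t, ht, ⟨hv, hj, hY, hb⟩, hA⟩
        obtain ⟨r1, hr1⟩ := A_eventually_seg (uv (run t) j t y)
        obtain ⟨r2, hr2⟩ := hlim y
        obtain ⟨t2, ht2, hv2, hj2, hY2⟩ := hinf (max t (max r1 r2)) y
        have w1 : val1 (run t) j t y = true := by rw [← hj]; exact val_val1 hv hY
        have w2 : val1 (run t2) j t2 y = true := by rw [← hj2]; exact val_val1 hv2 hY2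
        have h3 := (frozen (t1 := t) (t2 := t2) (by omega) w1 w2 (fun x hx _ => by
            rw [hA x hx, hr1 t2 (by omega) x hx]) (fun w hw he2 he1 => by
            subst hj
            refine new_side (by omega) hv hY hw he2 he1 (c := c) ?_ ?_
            · rw [hcc t2 (by omega)]
            · intro w' hw' he'
              exact ent_mono (by omega) (hs1 t2 w' hw' he'))).2.2
        rw [← hr2 t2 (by omega), ← h3, hb]
    apply hM
    have hre : ∀ b, REIn (st A) fun y => M y = b := by
      intro b
      have h1 : REIn (st A) fun y => ∃ t, (t ≥ max s0 s1 ∧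
          (val (run t) (sJ t) t (sY t) = true ∧ sJ t = j ∧ y ≤ sY t ∧ Ap (jm j) y t = b)) ∧
          ∀ x < uv (run t) j t y, inA (run t) x = A x := by
        refine REIn.ex (S := fun y t => (t ≥ max s0 s1 ∧
          (val (run t) (sJ t) t (sY t) = true ∧ sJ t = j ∧ y ≤ sY t ∧ Ap (jm j) y t = b)) ∧
          ∀ x < uv (run t) j t y, inA (run t) x = A x) ?_
        refine REIn.and (REIn.of_re ?_) ?_
        · have hr : Computable fun p : ℕ × ℕ => run p.2 := c_run.comp Computable.snd
          refine RE.and (RE.le (by fun_prop) (by fun_prop)) (RE.and ?_ (RE.and ?_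
            (RE.and (RE.le (by fun_prop) ?_) (RE.eq ?_ (by fun_prop)))))
          · exact RE.eq (f := fun p : ℕ × ℕ => val (run p.2) (sJ p.2) p.2 (sY p.2))
              (c_val hr (c_sJ (by fun_prop)) (by fun_prop) (c_sY (by fun_prop))) (by fun_prop)
          · exact RE.eq (f := fun p : ℕ × ℕ => sJ p.2) (c_sJ (by fun_prop)) (by fun_prop)
          · exact c_sY (by fun_prop)
          · exact c_Ap (c := fun _ : ℕ × ℕ => jm j) (w := fun p => p.1) (s := fun p => p.2)
              (by fun_prop) (by fun_prop) (by fun_prop)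
        · have hr : Computable fun p : ℕ × ℕ => run p.2 := c_run.comp Computable.snd
          refine REIn.all_lt (S := fun (p : ℕ × ℕ) x => inA (run p.2) x = A x) ?_
            (f := fun p => uv (run p.2) j p.2 p.1)
            (c_uv hr (by fun_prop) (by fun_prop) (by fun_prop))
          have hA1 : Computable fun q : (ℕ × ℕ) × ℕ => inA (run q.1.2) q.2 :=
            c_inA (S := fun q : (ℕ × ℕ) × ℕ => run q.1.2) (x := fun q => q.2)
              (hr.comp Computable.fst) (by fun_prop)
          have h2 : REIn (st A) fun q : (ℕ × ℕ) × ℕ =>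
              (inA (run q.1.2) q.2 = true ∧ q.2 ∈ st A) ∨
              (inA (run q.1.2) q.2 = false ∧ q.2 ∉ st A) := by
            refine REIn.or (REIn.and (REIn.of_re ?_) (REIn.mem (by fun_prop)))
              (REIn.and (REIn.of_re ?_) (REIn.not_mem (by fun_prop)))
            · exact RE.eq hA1 (by fun_prop)
            · exact RE.eq hA1 (by fun_prop)
          refine h2.of_eq fun q => ?_
          show (inA (run q.1.2) q.2 = true ∧ A q.2 = true) ∨
            (inA (run q.1.2) q.2 = false ∧ ¬ (A q.2 = true)) ↔ _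
          cases inA (run q.1.2) q.2 <;> cases A q.2 <;> simp
      refine h1.of_eq fun y => ?_
      rw [key y b]
      constructor
      · rintro ⟨t, ⟨h2, h3⟩, h4⟩; exact ⟨t, h2, h3, h4⟩
      · rintro ⟨t, h2, h3, h4⟩; exact ⟨t, ⟨h2, h3⟩, h4⟩
    exact ⟨hre true, hre false⟩

theorem exists_stage (j y r : ℕ) : ∃ t ≥ r, sJ t = j ∧ sY t = y := by
  refine ⟨Nat.pair (Nat.pair j y) r, Nat.right_le_pair _ _, ?_, ?_⟩
  · unfold sJ; simp
  · unfold sY; simp

/-- The splitting theorem: both parts of `M`, joined to `A`, do not compute `M`. -/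
theorem split {m : ℕ} {M : ℕ → Bool} (hlim : ∀ w, ∃ t, ∀ s ≥ t, Ap m w s = M w)
    (h1 : REIn (st A) fun w => Ent m w ∧ M w = true)
    (h2 : REIn (st A) fun w => Ent m w ∧ M w = false)
    (hM : ¬ ((REIn (st A) fun w => M w = true) ∧ REIn (st A) fun w => M w = false))
    (i : Bool) :
    ¬ ((REIn (st (jn A (MI m M i))) fun w => M w = true) ∧
      REIn (st (jn A (MI m M i))) fun w => M w = false) := by
  rintro ⟨h3, h4⟩
  obtain ⟨θ, hθ1, hθ2⟩ := index_partial h1 h2
  obtain ⟨φ, hφ1, hφ2⟩ := index_total h3 h4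
  obtain ⟨j, rfl, rfl, rfl, rfl⟩ : ∃ j, jm j = m ∧ jt j = θ ∧ jf j = φ ∧ ji j = i := by
    refine ⟨Nat.pair m (Nat.pair θ (Nat.pair φ (bif i then 1 else 0))), ?_, ?_, ?_, ?_⟩
    · unfold jm; simp
    · unfold jt; simp
    · unfold jf; simp
    · unfold ji; cases i <;> simp
  obtain ⟨B, hB⟩ := bounded hlim hM j rfl
  -- eventual validity
  have hval : ∀ y, ∃ t0, ∀ t ≥ t0, val1 (run t) j t y = true := by
    intro y
    obtain ⟨n, hn⟩ := hφ1 y
    obtain ⟨X, hX⟩ : ∃ X, X = jn A (MI (jm j) M (ji j)) := ⟨_, rfl⟩
    rw [← hX] at hn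
    -- limits on `n`
    choose f hf using hlim
    obtain ⟨tA, htA⟩ := A_eventually_seg n
    have horc : ∀ t, t ≥ tA → t ≥ (Finset.range n).sup f → ∀ x < n,
        orc (run t) j t x = X x := by
      intro t ht1 ht2 x hx
      have hx2 : x / 2 ≤ x := Nat.div_le_self _ _
      rw [hX]
      unfold orc jn
      have e1 := htA t ht1 (x / 2) (by omega)
      have e2 : Mi (run t).1 (jm j) (ji j) t (x / 2) = MI (jm j) M (ji j) (x / 2) := by
        have : Mi (T t) (jm j) (ji j) t (x / 2) = MI (jm j) M (ji j) (x / 2) := by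
          rw [Mi_eq]
          unfold MI
          rw [hf (x / 2) t (le_trans (Finset.le_sup (f := f)
            (Finset.mem_range.2 (by omega : x / 2 < n))) ht2)]
        exact this
      rw [e1, e2]
    -- the use
    obtain ⟨l, hl⟩ : ∃ l, l = lu (jf j) X n y := ⟨_, rfl⟩
    have hls := lu_spec (dn_of_cv hn)
    rw [← hl] at hls
    -- theta uses
    have hg : ∀ w, ∃ g, Ent (jm j) w → cv (jt j) A g w (M w) = true := by
      intro w
      by_cases hE : Ent (jm j) w
      · obtain ⟨g, hg⟩ := hθ1 w hE
        exact ⟨g, fun _ => hg⟩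
      · exact ⟨0, fun h => absurd h hE⟩
    choose g hg using hg
    obtain ⟨v0, hv0⟩ : ∃ v0, v0 = max l ((Finset.range l).sup g) := ⟨_, rfl⟩
    obtain ⟨tB, htB⟩ := A_eventually_seg v0
    refine ⟨max (max (max tA tB) ((Finset.range n).sup f)) (max (max n v0) (f y)),
      fun t ht => ?_⟩
    have horc' := horc t (by omega) (by omega)
    have hcv : cv (jf j) (orc (run t) j t) t y (M y) = true :=
      cv_mono (n := n) (by omega) (cv_congr (fun x hx => (horc' x hx).symm) hn)
    have hMy : Ap (jm j) y t = M y := hf y t (by omega)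
    have hul : ul (run t) j t y = l := by
      refine lu_eq_of (by omega) ?_ ?_
      · rw [dn_congr (Y := X) fun i hi => horc' i (by omega)]
        exact hls.2.1
      · intro k hk
        rw [dn_congr (Y := X) fun i hi => horc' i (by omega)]
        exact hls.2.2 k hk
    have hdn : ∀ w < l, rel (run t) j t w = true →
        cv (jt j) (inA (run t)) v0 w (M w) = true := by
      intro w hw hr
      have hE : Ent (jm j) w := by
        obtain ⟨r, _, hr⟩ := ent_iff.1 (rel_iff.1 hr).1
        exact ⟨r, hr⟩
      have h5 : g w ≤ (Finset.range l).sup g :=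
        Finset.le_sup (f := g) (Finset.mem_range.2 hw)
      refine cv_congr (fun x hx => ?_) (cv_mono (m := v0) (by omega) (hg w hE))
      exact (htB t (by omega) x hx).symm
    have hq : (decide (ul (run t) j t y ≤ v0) && allB (fun w => !(rel (run t) j t w) ||
        dn (jt j) (inA (run t)) v0 w) (ul (run t) j t y)) = true := by
      rw [Bool.and_eq_true, decide_eq_true_eq, hul, allB_iff]
      refine ⟨by omega, fun w hw => ?_⟩
      cases hr : rel (run t) j t w
      · rfl
      · rw [dn_of_cv (hdn w hw hr)]; rfl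
    obtain ⟨u1, u2, u3⟩ := lst_lt_of (q := fun v => decide (ul (run t) j t y ≤ v) &&
      allB (fun w => !(rel (run t) j t w) || dn (jt j) (inA (run t)) v w)
        (ul (run t) j t y)) (n := t + 1) (i := v0) (by omega) hq
    have huv : uv (run t) j t y ≤ v0 := u1
    have huv2 : (decide (ul (run t) j t y ≤ uv (run t) j t y) &&
      allB (fun w => !(rel (run t) j t w) || dn (jt j) (inA (run t)) (uv (run t) j t y) w)
        (ul (run t) j t y)) = true := u3
    unfold val1
    rw [Bool.and_eq_true, Bool.and_eq_true, decide_eq_true_eq]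
    refine ⟨by rw [hMy]; exact hcv, by omega, ?_⟩
    rw [Bool.and_eq_true, allB_iff] at huv2
    rw [allB_iff]
    intro w hw
    cases hr : rel (run t) j t w
    · rfl
    · have h6 := huv2.2 w hw
      rw [hr] at h6
      simp only [Bool.not_true, Bool.false_or] at h6 ⊢
      obtain ⟨b, hb⟩ : ∃ b, cv (jt j) (inA (run t)) (uv (run t) j t y) w b = true :=
        ⟨vl (jt j) (inA (run t)) (uv (run t) j t y) w, by unfold cv; rw [h6]; simp⟩
      have h7 := hdn w (by omega) hr
      have h8 : b = M w := cv_unique_same hb h7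
      have h9 : Ap (jm j) w t = M w := by
        have : w < n := by omega
        exact hf w t (le_trans (Finset.le_sup (f := f) (Finset.mem_range.2 this)) (by omega))
      rw [h9, ← h8]
      exact hb
  choose g hg using hval
  obtain ⟨t, ht, hj, hY⟩ := exists_stage j (B + 1) ((Finset.range (B + 2)).sup g)
  have hv : val (run t) (sJ t) t (sY t) = true := by
    rw [hj, hY]
    unfold val
    rw [allB_iff]
    intro y hy
    exact hg y t (le_trans (Finset.le_sup (f := g) (Finset.mem_range.2 hy)) ht)
  have hz : nent (run t) t (B + 1) ∈ T (t + 1) :=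
    mem_T.2 ⟨t, by omega, B + 1, by omega, hv, rfl⟩
  have := hB _ _ hz (by rw [nent_req, hj])
  rw [nent_use] at this
  omega

end Pool.Agent.H587R2.NCE
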